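import Mathlib

set_option autoImplicit false

namespace Pool.Agent.Lib_helper53.PIX

/-- A chain of reduced fractions `P k / d k` with bounded nonzero consecutive determinants. -/
structure Chn (C μ : ℕ) (P : ℕ → ℤ) (d : ℕ → ℕ) : Prop where
  cop : ∀ k, IsCoprime (P k) (d k : ℤ)
  pos : ∀ k, 1 ≤ d k
  lt : ∀ k, d k < d (k + 1)
  det_ne : ∀ k, P (k + 1) * d k - P k * d (k + 1) ≠ 0
  det_le : ∀ k, |P (k + 1) * d k - P k * d (k + 1)| ≤ C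
  growth : ∀ k, d (k + 1) ≤ C * d k ^ μ

/-- Representation `g k * d k = r ^ h k - r ^ u k` of the denominators. -/
structure Rep (r C : ℕ) (d g u h : ℕ → ℕ) : Prop where
  uh : ∀ k, u k < h k
  g1 : ∀ k, 1 ≤ g k
  gC : ∀ k, g k ≤ C
  eq : ∀ k, g k * d k + r ^ (u k) = r ^ (h k)

def Small (u h : ℕ → ℕ) : Prop := ∀ N : ℕ, ∃ k₀, ∀ k, k₀ ≤ k → N * u k ≤ h k

def Gap (u h : ℕ → ℕ) : Prop :=
  ∀ K : ℕ, ∃ k₀, ∀ k, k₀ ≤ k → u k ≤ K → u (k + 1) ≤ K → h k + K < h (k + 1)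

/-- Three term relation in base `r` at the indices `k, k+1, k+2`. -/
def TT (r : ℕ) (P : ℕ → ℤ) (d g u h : ℕ → ℕ) (k : ℕ) : Prop :=
  (∃ m : ℕ, 1 ≤ m ∧ h (k + 2) - u (k + 2) = m * (h (k + 1) - u (k + 1)) + (h k - u k)) ∧
    (P (k + 1) * d k - P k * d (k + 1)) * g k * (r : ℤ) ^ (u (k + 2)) =
      -((P (k + 2) * d (k + 1) - P (k + 1) * d (k + 2)) * g (k + 2) * (r : ℤ) ^ (u k))

end Pool.Agent.Lib_helper53.PIX
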