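import Pool.Agent.Lib_helper53.PIX.Fit

set_option autoImplicit false

namespace Pool.Agent.Lib_helper53.PIX

/-- A very good rational approximation. -/
def VG (ξ : ℝ) (C : ℕ) (P : ℤ) (d : ℕ) : Prop :=
  1 ≤ d ∧ IsCoprime P (d : ℤ) ∧ |(d : ℝ) * ξ - (P : ℝ)| * (d : ℝ) * (C : ℝ) ≤ 1

theorem exists_pow_between {r : ℕ} (hr : 2 ≤ r) {x : ℕ} (hx : 2 ≤ x) :
    ∃ n, x ≤ r ^ n ∧ r ^ n ≤ r * x := by
  refine ⟨Nat.clog r x, Nat.le_pow_clog (by omega) x, ?_⟩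
  have h1 := Nat.pow_pred_clog_lt_self (b := r) (by omega) (x := x) (by omega)
  have h2 : 0 < Nat.clog r x := Nat.clog_pos (by omega) (by omega)
  calc r ^ Nat.clog r x = r * r ^ (Nat.clog r x).pred := by
        rw [← pow_succ']
        congr 1
        simp only [Nat.pred_eq_sub_one]
        omega
    _ ≤ r * x := Nat.mul_le_mul_left r h1.le

/-- Every very good approximation has a denominator dividing `r^h - r^u` with bounded index. -/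
theorem rep_of_vg {ξ : ℝ} {r : ℕ} (hr : 2 ≤ r) {c : ℕ}
    (hfit : ∀ n, ∃ i j, i < j ∧ j ≤ n + c ∧ Fit ξ r n i j) {C : ℕ} (hC : 4 * r ^ (c + 1) ≤ C)
    {P : ℤ} {d : ℕ} (h : VG ξ C P d) :
    ∃ g u h : ℕ, u < h ∧ 1 ≤ g ∧ g ≤ C ∧ g * d + r ^ u = r ^ h := by
  obtain ⟨hd, hcop, hap⟩ := h
  obtain ⟨n, hn1, hn2⟩ := exists_pow_between hr (x := 2 * d) (by omega)
  obtain ⟨i, j, hij, hj, A, hA⟩ := hfit n
  have hr1 : (1 : ℝ) ≤ r := by exact_mod_cast (by omega : 1 ≤ r)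
  have hrn : (0 : ℝ) < (r : ℝ) ^ n := by positivity
  have hd0 : (0 : ℝ) < d := by exact_mod_cast hd
  have hrij : (r : ℝ) ^ i ≤ (r : ℝ) ^ j := pow_le_pow_right₀ hr1 hij.le
  have hjb : r ^ j ≤ 2 * d * r ^ (c + 1) := by
    calc r ^ j ≤ r ^ (n + c) := Nat.pow_le_pow_right (by omega) hj
      _ = r ^ n * r ^ c := pow_add _ _ _
      _ ≤ (r * (2 * d)) * r ^ c := Nat.mul_le_mul_right _ hn2
      _ = 2 * d * r ^ (c + 1) := by ring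
  have hZ : P * ((r : ℤ) ^ j - (r : ℤ) ^ i) = A * d := by
    have h1 : |((P * ((r : ℤ) ^ j - (r : ℤ) ^ i) - A * d : ℤ) : ℝ)| < 1 := by
      have e : ((P * ((r : ℤ) ^ j - (r : ℤ) ^ i) - A * d : ℤ) : ℝ) =
          d * (((r : ℝ) ^ j - (r : ℝ) ^ i) * ξ - A) -
          ((r : ℝ) ^ j - (r : ℝ) ^ i) * (d * ξ - P) := by
        push_cast
        ring
      rw [e]
      have h2 : |(d : ℝ) * (((r : ℝ) ^ j - (r : ℝ) ^ i) * ξ - A)| ≤ 1 / 2 := by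
        rw [abs_mul, abs_of_pos hd0]
        calc (d : ℝ) * |((r : ℝ) ^ j - (r : ℝ) ^ i) * ξ - A| ≤ d * (1 / (r : ℝ) ^ n) := by gcongr
          _ ≤ 1 / 2 := by
              rw [mul_one_div, div_le_div_iff₀ hrn (by norm_num)]
              have : ((2 * d : ℕ) : ℝ) ≤ ((r ^ n : ℕ) : ℝ) := by exact_mod_cast hn1
              push_cast at this
              linarith
      have h3 : |((r : ℝ) ^ j - (r : ℝ) ^ i) * (d * ξ - P)| < 1 / 2 := by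
        rw [abs_mul, abs_of_nonneg (by linarith : (0 : ℝ) ≤ (r : ℝ) ^ j - (r : ℝ) ^ i)]
        have hri : (0 : ℝ) < (r : ℝ) ^ i := by positivity
        have h4 : ((r : ℝ) ^ j - (r : ℝ) ^ i) < 2 * d * (r : ℝ) ^ (c + 1) := by
          have : ((r ^ j : ℕ) : ℝ) ≤ ((2 * d * r ^ (c + 1) : ℕ) : ℝ) := by exact_mod_cast hjb
          push_cast at this
          linarith
        have hCr : 4 * (r : ℝ) ^ (c + 1) ≤ C := by exact_mod_cast hC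
        have hx := abs_nonneg ((d : ℝ) * ξ - P)
        rcases hx.eq_or_lt with h0 | h0
        · rw [← h0]
          norm_num
        · have h5 : ((r : ℝ) ^ j - (r : ℝ) ^ i) * |(d : ℝ) * ξ - P| <
              2 * d * (r : ℝ) ^ (c + 1) * |(d : ℝ) * ξ - P| := by gcongr
          have h6 : |(d : ℝ) * ξ - P| * d * (4 * (r : ℝ) ^ (c + 1)) ≤
              |(d : ℝ) * ξ - P| * d * C := by gcongr
          nlinarith
      exact lt_of_le_of_lt (abs_sub _ _) (by linarith)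
    have h2 : |P * ((r : ℤ) ^ j - (r : ℤ) ^ i) - A * d| < 1 := by exact_mod_cast h1
    have h3 := Int.abs_lt_one_iff.1 h2
    linarith
  have hdvd : (d : ℤ) ∣ (r : ℤ) ^ j - (r : ℤ) ^ i :=
    hcop.symm.dvd_of_dvd_mul_left (by rw [hZ]; exact Dvd.intro_left A rfl)
  have hij' : r ^ i < r ^ j := Nat.pow_lt_pow_right (by omega) hij
  have hdvd' : d ∣ r ^ j - r ^ i := by
    rw [← Int.natCast_dvd_natCast, Nat.cast_sub hij'.le]
    push_cast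
    exact hdvd
  obtain ⟨g, hg⟩ := hdvd'
  have hgd : g * d + r ^ i = r ^ j := by
    rw [Nat.mul_comm g d, ← hg]
    omega
  refine ⟨g, i, j, hij, ?_, ?_, hgd⟩
  · rcases Nat.eq_zero_or_pos g with h0 | h0
    · subst h0
      omega
    · exact h0
  · have h1 : g * d ≤ C * d := by
      calc g * d ≤ r ^ j := by omega
        _ ≤ 2 * d * r ^ (c + 1) := hjb
        _ ≤ C * d := by nlinarith
    exact Nat.le_of_mul_le_mul_right h1 (by omega)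

theorem far_bound {ξ : ℝ} {r : ℕ} (hr : 2 ≤ r)
    (hfar : ∀ δ, 1 ≤ δ → ∃ M : ℕ, ∀ (m : ℕ) (A : ℤ),
      1 / (r : ℝ) ^ M < |((r : ℝ) ^ (m + δ) - (r : ℝ) ^ m) * ξ - (A : ℝ)|) (Δ : ℕ) :
    ∃ M : ℕ, ∀ (a b : ℕ), a ≠ b → a ≤ b + Δ → b ≤ a + Δ → ∀ A : ℤ,
      1 / (r : ℝ) ^ M < |((r : ℝ) ^ b - (r : ℝ) ^ a) * ξ - (A : ℝ)| := by
  have hr1 : (1 : ℝ) ≤ r := by exact_mod_cast (by omega : 1 ≤ r)
  choose! Mf hMf using hfar
  refine ⟨(Finset.range (Δ + 1)).sup Mf, fun a b hne hab hba A => ?_⟩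
  have key : ∀ a b : ℕ, a < b → b ≤ a + Δ → ∀ A : ℤ,
      1 / (r : ℝ) ^ ((Finset.range (Δ + 1)).sup Mf) <
        |((r : ℝ) ^ b - (r : ℝ) ^ a) * ξ - (A : ℝ)| := by
    intro a b h1 h2 A
    have h3 := hMf (b - a) (by omega) a A
    rw [show a + (b - a) = b by omega] at h3
    refine lt_of_le_of_lt ?_ h3
    have h4 : Mf (b - a) ≤ (Finset.range (Δ + 1)).sup Mf :=
      Finset.le_sup (f := Mf) (Finset.mem_range.2 (by omega))
    exact one_div_le_one_div_of_le (by positivity) (pow_le_pow_right₀ hr1 h4)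
  rcases lt_or_gt_of_ne hne with h | h
  · exact key a b h hba A
  · have h1 := key b a h hab (-A)
    have h2 : ((r : ℝ) ^ a - (r : ℝ) ^ b) * ξ - ((-A : ℤ) : ℝ) =
        -(((r : ℝ) ^ b - (r : ℝ) ^ a) * ξ - (A : ℝ)) := by
      push_cast
      ring
    rw [h2, abs_neg] at h1
    exact h1

section pair

variable {ξ : ℝ} {r c c₁ na nb ia ja ib jb : ℕ} {A B : ℤ}

theorem pair_ne (hr : 2 ≤ r) (hn : na + (c₁ + c) ≤ nb)
    (hija : ia < ja) (hja : ja ≤ na + c) (hijb : ib < jb)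
    (hjb' : nb < jb + c₁) (hB : |((r : ℝ) ^ jb - (r : ℝ) ^ ib) * ξ - (B : ℝ)| ≤ 1 / (r : ℝ) ^ nb)
    (hbad : ∀ i j, i < j → Fit ξ r nb i j → nb < j + c₁) :
    A * ((r : ℤ) ^ jb - (r : ℤ) ^ ib) ≠ B * ((r : ℤ) ^ ja - (r : ℤ) ^ ia) := by
  intro he
  have hr1 : (1 : ℝ) < r := by exact_mod_cast (by omega : 1 < r)
  have hr2 : (2 : ℝ) ≤ r := by exact_mod_cast hr
  have hDa : (0 : ℝ) < (r : ℝ) ^ ja - (r : ℝ) ^ ia := by
    have := pow_lt_pow_right₀ hr1 hija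
    linarith
  have hDb : (0 : ℝ) < (r : ℝ) ^ jb - (r : ℝ) ^ ib := by
    have := pow_lt_pow_right₀ hr1 hijb
    linarith
  have hDD : (r : ℝ) ^ ja - (r : ℝ) ^ ia ≤ (r : ℝ) ^ jb - (r : ℝ) ^ ib := by
    have h1 : (r : ℝ) ^ ja ≤ (r : ℝ) ^ (jb - 1) := pow_le_pow_right₀ hr1.le (by omega)
    have h2 : (r : ℝ) ^ ib ≤ (r : ℝ) ^ (jb - 1) := pow_le_pow_right₀ hr1.le (by omega)
    have h3 : (r : ℝ) ^ jb = (r : ℝ) ^ (jb - 1) * r := by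
      rw [← pow_succ]
      congr 1
      omega
    have h4 : 0 < (r : ℝ) ^ ia := by positivity
    have h5 : 0 < (r : ℝ) ^ (jb - 1) := by positivity
    nlinarith
  have her : (A : ℝ) * ((r : ℝ) ^ jb - (r : ℝ) ^ ib) = B * ((r : ℝ) ^ ja - (r : ℝ) ^ ia) := by
    exact_mod_cast he
  have h1 : |((r : ℝ) ^ ja - (r : ℝ) ^ ia) * ξ - (A : ℝ)| * ((r : ℝ) ^ jb - (r : ℝ) ^ ib) =
      |((r : ℝ) ^ jb - (r : ℝ) ^ ib) * ξ - (B : ℝ)| * ((r : ℝ) ^ ja - (r : ℝ) ^ ia) := by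
    calc _ = |(((r : ℝ) ^ ja - (r : ℝ) ^ ia) * ξ - (A : ℝ)) * ((r : ℝ) ^ jb - (r : ℝ) ^ ib)| := by
          rw [abs_mul, abs_of_pos hDb]
      _ = |(((r : ℝ) ^ jb - (r : ℝ) ^ ib) * ξ - (B : ℝ)) * ((r : ℝ) ^ ja - (r : ℝ) ^ ia)| := by
          congr 1
          linear_combination -her
      _ = _ := by rw [abs_mul, abs_of_pos hDa]
  have h2 : |((r : ℝ) ^ ja - (r : ℝ) ^ ia) * ξ - (A : ℝ)| ≤ 1 / (r : ℝ) ^ nb := by
    refine le_trans ?_ hB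
    have h3 : |((r : ℝ) ^ jb - (r : ℝ) ^ ib) * ξ - (B : ℝ)| * ((r : ℝ) ^ ja - (r : ℝ) ^ ia) ≤
        |((r : ℝ) ^ jb - (r : ℝ) ^ ib) * ξ - (B : ℝ)| * ((r : ℝ) ^ jb - (r : ℝ) ^ ib) := by
      gcongr
    rw [← h1] at h3
    exact le_of_mul_le_mul_right h3 hDb
  have := hbad ia ja hija ⟨A, h2⟩
  omega

theorem pair_det (hr : 2 ≤ r) (hn1 : na ≤ nb) (hn : nb ≤ na + 2 * (c₁ + c))
    (hija : ia < ja) (hja : ja ≤ na + c) (hijb : ib < jb) (hjb : jb ≤ nb + c)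
    (hA : |((r : ℝ) ^ ja - (r : ℝ) ^ ia) * ξ - (A : ℝ)| ≤ 1 / (r : ℝ) ^ na)
    (hB : |((r : ℝ) ^ jb - (r : ℝ) ^ ib) * ξ - (B : ℝ)| ≤ 1 / (r : ℝ) ^ nb)
    (hne : A * ((r : ℤ) ^ jb - (r : ℤ) ^ ib) ≠ B * ((r : ℤ) ^ ja - (r : ℤ) ^ ia)) :
    ia ≤ c + 2 * (c₁ + c) + 1 ∨ ib ≤ c + 2 * (c₁ + c) + 1 := by
  by_contra hcon
  push Not at hcon
  obtain ⟨h1, h2⟩ := hcon
  set K := c + 2 * (c₁ + c) + 1 with hK
  have hr1 : (1 : ℝ) ≤ r := by exact_mod_cast (by omega : 1 ≤ r)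
  have hr2 : (2 : ℝ) ≤ r := by exact_mod_cast hr
  set Z : ℤ := A * ((r : ℤ) ^ jb - (r : ℤ) ^ ib) - B * ((r : ℤ) ^ ja - (r : ℤ) ^ ia) with hZ
  have hZ0 : Z ≠ 0 := sub_ne_zero.2 hne
  have hdvd : (r : ℤ) ^ (K + 1) ∣ Z := by
    have d1 : ∀ m, K + 1 ≤ m → (r : ℤ) ^ (K + 1) ∣ (r : ℤ) ^ m := fun m hm => pow_dvd_pow _ hm
    apply dvd_sub
    · exact Dvd.dvd.mul_left (dvd_sub (d1 _ (by omega)) (d1 _ (by omega))) _
    · exact Dvd.dvd.mul_left (dvd_sub (d1 _ (by omega)) (d1 _ (by omega))) _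
  have h3 : (r : ℤ) ^ (K + 1) ≤ |Z| :=
    Int.le_of_dvd (abs_pos.2 hZ0) ((dvd_abs _ _).2 hdvd)
  have h4 : |(Z : ℝ)| ≤ (r : ℝ) ^ K := by
    have e : (Z : ℝ) = ((r : ℝ) ^ ja - (r : ℝ) ^ ia) * (((r : ℝ) ^ jb - (r : ℝ) ^ ib) * ξ - B) -
        ((r : ℝ) ^ jb - (r : ℝ) ^ ib) * (((r : ℝ) ^ ja - (r : ℝ) ^ ia) * ξ - A) := by
      rw [hZ]
      push_cast
      ring
    have hDa : 0 ≤ (r : ℝ) ^ ja - (r : ℝ) ^ ia := by
      have := pow_le_pow_right₀ hr1 hija.le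
      linarith
    have hDb : 0 ≤ (r : ℝ) ^ jb - (r : ℝ) ^ ib := by
      have := pow_le_pow_right₀ hr1 hijb.le
      linarith
    have hna : (0 : ℝ) < (r : ℝ) ^ na := by positivity
    have hnb : (0 : ℝ) < (r : ℝ) ^ nb := by positivity
    have t1 : |((r : ℝ) ^ ja - (r : ℝ) ^ ia) * (((r : ℝ) ^ jb - (r : ℝ) ^ ib) * ξ - B)| ≤
        (r : ℝ) ^ c := by
      rw [abs_mul, abs_of_nonneg hDa]
      calc _ ≤ (r : ℝ) ^ (nb + c) * (1 / (r : ℝ) ^ nb) := by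
            apply mul_le_mul _ hB (abs_nonneg _) (by positivity)
            have : (r : ℝ) ^ ja ≤ (r : ℝ) ^ (nb + c) := pow_le_pow_right₀ hr1 (by omega)
            have : 0 ≤ (r : ℝ) ^ ia := by positivity
            linarith
        _ = (r : ℝ) ^ c := by
            rw [pow_add]
            field_simp
    have t2 : |((r : ℝ) ^ jb - (r : ℝ) ^ ib) * (((r : ℝ) ^ ja - (r : ℝ) ^ ia) * ξ - A)| ≤
        (r : ℝ) ^ (c + 2 * (c₁ + c)) := by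
      rw [abs_mul, abs_of_nonneg hDb]
      calc _ ≤ (r : ℝ) ^ (na + (c + 2 * (c₁ + c))) * (1 / (r : ℝ) ^ na) := by
            apply mul_le_mul _ hA (abs_nonneg _) (by positivity)
            have : (r : ℝ) ^ jb ≤ (r : ℝ) ^ (na + (c + 2 * (c₁ + c))) :=
              pow_le_pow_right₀ hr1 (by omega)
            have : 0 ≤ (r : ℝ) ^ ib := by positivity
            linarith
        _ = (r : ℝ) ^ (c + 2 * (c₁ + c)) := by
            rw [pow_add]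
            field_simp
    have t3 : (r : ℝ) ^ c ≤ (r : ℝ) ^ (c + 2 * (c₁ + c)) := pow_le_pow_right₀ hr1 (by omega)
    have t4 : (r : ℝ) ^ K = (r : ℝ) ^ (c + 2 * (c₁ + c)) * r := by
      rw [hK, pow_succ]
    have t5 : 0 < (r : ℝ) ^ (c + 2 * (c₁ + c)) := by positivity
    rw [e]
    refine (abs_sub _ _).trans ?_
    rw [t4]
    nlinarith
  have h5 : (r : ℝ) ^ (K + 1) ≤ |(Z : ℝ)| := by exact_mod_cast h3
  have h6 : (r : ℝ) ^ K < (r : ℝ) ^ (K + 1) :=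
    pow_lt_pow_right₀ (by linarith) (Nat.lt_succ_self K)
  linarith

theorem pair_far (hr : 2 ≤ r) {K Δ M : ℕ}
    (hM : ∀ (a b : ℕ), a ≠ b → a ≤ b + Δ → b ≤ a + Δ → ∀ A : ℤ,
      1 / (r : ℝ) ^ M < |((r : ℝ) ^ b - (r : ℝ) ^ a) * ξ - (A : ℝ)|)
    (hn1 : na ≤ nb)
    (hia : ia ≤ K) (hib : ib ≤ K) (hija : ia < ja) (hijb : ib < jb)
    (h1 : K + jb ≤ ja + Δ) (h2 : K + ja ≤ jb + Δ) (hna : K + M + 2 ≤ na)
    (hA : |((r : ℝ) ^ ja - (r : ℝ) ^ ia) * ξ - (A : ℝ)| ≤ 1 / (r : ℝ) ^ na)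
    (hB : |((r : ℝ) ^ jb - (r : ℝ) ^ ib) * ξ - (B : ℝ)| ≤ 1 / (r : ℝ) ^ nb)
    (hne : A * ((r : ℤ) ^ jb - (r : ℤ) ^ ib) ≠ B * ((r : ℤ) ^ ja - (r : ℤ) ^ ia)) : False := by
  have hr1 : (1 : ℝ) ≤ r := by exact_mod_cast (by omega : 1 ≤ r)
  have hr2 : (2 : ℝ) ≤ r := by exact_mod_cast hr
  set ea := K - ia + ja with hea
  set eb := K - ib + jb with heb
  have pa : (r : ℤ) ^ (K - ia) * ((r : ℤ) ^ ja - (r : ℤ) ^ ia) = (r : ℤ) ^ ea - (r : ℤ) ^ K := by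
    rw [mul_sub, ← pow_add, ← pow_add, show K - ia + ia = K by omega]
  have pb : (r : ℤ) ^ (K - ib) * ((r : ℤ) ^ jb - (r : ℤ) ^ ib) = (r : ℤ) ^ eb - (r : ℤ) ^ K := by
    rw [mul_sub, ← pow_add, ← pow_add, show K - ib + ib = K by omega]
  have pa' : (r : ℝ) ^ (K - ia) * ((r : ℝ) ^ ja - (r : ℝ) ^ ia) = (r : ℝ) ^ ea - (r : ℝ) ^ K := by
    exact_mod_cast pa
  have pb' : (r : ℝ) ^ (K - ib) * ((r : ℝ) ^ jb - (r : ℝ) ^ ib) = (r : ℝ) ^ eb - (r : ℝ) ^ K := by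
    exact_mod_cast pb
  set N : ℤ := (r : ℤ) ^ (K - ib) * B - (r : ℤ) ^ (K - ia) * A with hN
  have hX : |((r : ℝ) ^ eb - (r : ℝ) ^ ea) * ξ - (N : ℝ)| ≤ 1 / 2 * (1 / (r : ℝ) ^ M) := by
    have e : ((r : ℝ) ^ eb - (r : ℝ) ^ ea) * ξ - (N : ℝ) =
        (r : ℝ) ^ (K - ib) * (((r : ℝ) ^ jb - (r : ℝ) ^ ib) * ξ - B) -
        (r : ℝ) ^ (K - ia) * (((r : ℝ) ^ ja - (r : ℝ) ^ ia) * ξ - A) := by
      rw [hN]
      push_cast
      linear_combination ξ * pa' - ξ * pb'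
    have t1 : |(r : ℝ) ^ (K - ib) * (((r : ℝ) ^ jb - (r : ℝ) ^ ib) * ξ - B)| ≤
        (r : ℝ) ^ K * (1 / (r : ℝ) ^ na) := by
      rw [abs_mul, abs_of_pos (by positivity : (0 : ℝ) < (r : ℝ) ^ (K - ib))]
      apply mul_le_mul (pow_le_pow_right₀ hr1 (by omega)) _ (abs_nonneg _) (by positivity)
      refine hB.trans ?_
      exact one_div_le_one_div_of_le (by positivity) (pow_le_pow_right₀ hr1 hn1)
    have t2 : |(r : ℝ) ^ (K - ia) * (((r : ℝ) ^ ja - (r : ℝ) ^ ia) * ξ - A)| ≤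
        (r : ℝ) ^ K * (1 / (r : ℝ) ^ na) := by
      rw [abs_mul, abs_of_pos (by positivity : (0 : ℝ) < (r : ℝ) ^ (K - ia))]
      exact mul_le_mul (pow_le_pow_right₀ hr1 (by omega)) hA (abs_nonneg _) (by positivity)
    rw [e]
    refine (abs_sub _ _).trans ?_
    have t3 : (r : ℝ) ^ K * (1 / (r : ℝ) ^ na) ≤ 1 / 4 * (1 / (r : ℝ) ^ M) := by
      have h3 : (r : ℝ) ^ K * (r : ℝ) ^ M * 4 ≤ (r : ℝ) ^ na := by
        calc (r : ℝ) ^ K * (r : ℝ) ^ M * 4 = (r : ℝ) ^ K * (r : ℝ) ^ M * (2 * 2) := by ring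
          _ ≤ (r : ℝ) ^ K * (r : ℝ) ^ M * (r * r) := by gcongr
          _ = (r : ℝ) ^ (K + M + 2) := by
              rw [pow_add, pow_add]
              ring
          _ ≤ (r : ℝ) ^ na := pow_le_pow_right₀ hr1 hna
      have hM0 : (0 : ℝ) < (r : ℝ) ^ M := by positivity
      have hn0 : (0 : ℝ) < (r : ℝ) ^ na := by positivity
      have h4 : 1 / 4 * (1 / (r : ℝ) ^ M) * (r : ℝ) ^ na = (r : ℝ) ^ na / (4 * (r : ℝ) ^ M) := by
        field_simp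
      rw [mul_one_div, div_le_iff₀ hn0, h4, le_div_iff₀ (by positivity)]
      linarith
    linarith
  by_cases hee : ea = eb
  · have h3 : |(N : ℝ)| < 1 := by
      rw [hee, sub_self, zero_mul, zero_sub, abs_neg] at hX
      refine lt_of_le_of_lt hX ?_
      have hlt : (1 : ℝ) / (r : ℝ) ^ M ≤ 1 := by
        rw [div_le_one (by positivity)]
        exact one_le_pow₀ hr1
      linarith
    have h4 : |N| < 1 := by exact_mod_cast h3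
    have h5 := Int.abs_lt_one_iff.1 h4
    apply hne
    have h6 : (r : ℤ) ^ (K - ib) * B = (r : ℤ) ^ (K - ia) * A := by linarith
    have h7 : ((r : ℤ) ^ (K - ia) * (r : ℤ) ^ (K - ib)) *
        (A * ((r : ℤ) ^ jb - (r : ℤ) ^ ib)) =
        ((r : ℤ) ^ (K - ia) * (r : ℤ) ^ (K - ib)) *
        (B * ((r : ℤ) ^ ja - (r : ℤ) ^ ia)) := by
      rw [hee] at pa
      linear_combination ((r : ℤ) ^ (K - ia) * A) * pb - ((r : ℤ) ^ (K - ib) * B) * pa -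
        ((r : ℤ) ^ eb - (r : ℤ) ^ K) * h6
    have h8 : ((r : ℤ) ^ (K - ia) * (r : ℤ) ^ (K - ib)) ≠ 0 := by
      have : (r : ℤ) ≠ 0 := by positivity
      positivity
    exact mul_left_cancel₀ h8 h7
  · have h3 := hM ea eb hee (by omega) (by omega) N
    have h4 : (0 : ℝ) < 1 / (r : ℝ) ^ M := by positivity
    linarith

end pair

/-- In every window there is a length with a pair that is clearly better than the pigeonhole
pair. -/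
theorem good_n {ξ : ℝ} {r : ℕ} (hr : 2 ≤ r) {c : ℕ}
    (hfit : ∀ n, ∃ i j, i < j ∧ j ≤ n + c ∧ Fit ξ r n i j)
    (hfar : ∀ δ, 1 ≤ δ → ∃ M : ℕ, ∀ (m : ℕ) (A : ℤ),
      1 / (r : ℝ) ^ M < |((r : ℝ) ^ (m + δ) - (r : ℝ) ^ m) * ξ - (A : ℝ)|) (c₁ : ℕ) :
    ∃ N₀, ∀ n, N₀ ≤ n → ∃ n', n ≤ n' ∧ n' ≤ n + 2 * (c₁ + c) ∧
      ∃ i j, i < j ∧ j + c₁ ≤ n' ∧ Fit ξ r n' i j := by
  set K := c + 2 * (c₁ + c) + 1 with hK
  obtain ⟨M, hM⟩ := far_bound hr hfar (K + 2 * (c₁ + c) + c + c₁)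
  refine ⟨K + M + 2, fun n hn => ?_⟩
  by_contra hcon
  push Not at hcon
  have hbad : ∀ n', n ≤ n' → n' ≤ n + 2 * (c₁ + c) → ∀ i j, i < j → Fit ξ r n' i j →
      n' < j + c₁ := by
    intro n' h1 h2 i j hij hf
    by_contra h3
    exact hcon n' h1 h2 i j hij (by omega) hf
  obtain ⟨i0, j0, hij0, hj0, A0, hA0⟩ := hfit n
  obtain ⟨i1, j1, hij1, hj1, A1, hA1⟩ := hfit (n + (c₁ + c))
  obtain ⟨i2, j2, hij2, hj2, A2, hA2⟩ := hfit (n + 2 * (c₁ + c))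
  have b0 := hbad n le_rfl (by omega) i0 j0 hij0 ⟨A0, hA0⟩
  have b1 := hbad (n + (c₁ + c)) (by omega) (by omega) i1 j1 hij1 ⟨A1, hA1⟩
  have b2 := hbad (n + 2 * (c₁ + c)) (by omega) (by omega) i2 j2 hij2 ⟨A2, hA2⟩
  have ne01 := pair_ne (A := A0) (B := A1) hr (by omega : n + (c₁ + c) ≤ n + (c₁ + c)) hij0 hj0
    hij1 b1 hA1 (hbad _ (by omega) (by omega))
  have ne02 := pair_ne (A := A0) (B := A2) hr (by omega : n + (c₁ + c) ≤ n + 2 * (c₁ + c)) hij0 hj0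
    hij2 b2 hA2 (hbad _ (by omega) (by omega))
  have ne12 := pair_ne (A := A1) (B := A2) hr
    (by omega : n + (c₁ + c) + (c₁ + c) ≤ n + 2 * (c₁ + c)) hij1 hj1
    hij2 b2 hA2 (hbad _ (by omega) (by omega))
  have d01 := pair_det (c₁ := c₁) hr (by omega) (by omega) hij0 hj0 hij1 hj1 hA0 hA1 ne01
  have d02 := pair_det (c₁ := c₁) hr (by omega) (by omega) hij0 hj0 hij2 hj2 hA0 hA2 ne02
  have d12 := pair_det (c₁ := c₁) hr (by omega) (by omega) hij1 hj1 hij2 hj2 hA1 hA2 ne12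
  rw [← hK] at d01 d02 d12
  have f01 : ¬ (i0 ≤ K ∧ i1 ≤ K) := fun h => pair_far hr hM (by omega) h.1 h.2 hij0 hij1
    (by omega) (by omega) (by omega) hA0 hA1 ne01
  have f02 : ¬ (i0 ≤ K ∧ i2 ≤ K) := fun h => pair_far hr hM (by omega) h.1 h.2 hij0 hij2
    (by omega) (by omega) (by omega) hA0 hA2 ne02
  have f12 : ¬ (i1 ≤ K ∧ i2 ≤ K) := fun h => pair_far hr hM (by omega) h.1 h.2 hij1 hij2
    (by omega) (by omega) (by omega) hA1 hA2 ne12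
  omega

end Pool.Agent.Lib_helper53.PIX
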