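import Mathlib

set_option autoImplicit false

namespace Pool.Agent.Lib_helper53.PIX

/-- `(2 sin (y/2))^(2m)` -/
noncomputable def ker (m : ℕ) (y : ℝ) : ℝ := (2 * Real.sin (y / 2)) ^ (2 * m)

/-- iterated convolutions of `ker m` on the half line -/
noncomputable def conv (m : ℕ) : ℕ → ℝ → ℝ
  | 0 => ker m
  | (j + 1) => fun y => ∫ x in (0 : ℝ)..y, ker m (y - x) * conv m j x

end Pool.Agent.Lib_helper53.PIX
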