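import Pool.Agent.Lib_helper53.PIB.Digits

set_option autoImplicit false

namespace Pool.Agent.Lib_helper53.PIX

open Pool.Agent.Lib_helper53.PIB

/-- `(r^j - r^i) ξ` is within `r^(-n)` of an integer. -/
def Fit (ξ : ℝ) (r n i j : ℕ) : Prop :=
  ∃ A : ℤ, |((r : ℝ) ^ j - (r : ℝ) ^ i) * ξ - (A : ℝ)| ≤ 1 / (r : ℝ) ^ n

theorem fl_step (ξ : ℝ) {b : ℕ} (hb : 2 ≤ b) (j : ℕ) :
    ⌊ξ * (b : ℝ) ^ (j + 1)⌋₊ = b * ⌊ξ * (b : ℝ) ^ j⌋₊ + dig ξ b j := by
  have h1 : ⌊ξ * (b : ℝ) ^ j⌋₊ = ⌊ξ * (b : ℝ) ^ (j + 1)⌋₊ / b := by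
    have := floor_div_pow ξ hb j 1
    simpa using this
  rw [h1]
  exact (Nat.div_add_mod _ _).symm

theorem fl_bd {ξ : ℝ} (h0 : 0 < ξ) (b j : ℕ) :
    0 ≤ ξ * (b : ℝ) ^ j - (⌊ξ * (b : ℝ) ^ j⌋₊ : ℝ) ∧
      ξ * (b : ℝ) ^ j - (⌊ξ * (b : ℝ) ^ j⌋₊ : ℝ) < 1 := by
  have hp : 0 ≤ ξ * (b : ℝ) ^ j := by positivity
  have h1 := Nat.floor_le hp
  have h2 := Nat.lt_floor_add_one (ξ * (b : ℝ) ^ j)
  constructor <;> linarith

theorem fit_of_fac {ξ : ℝ} (h0 : 0 < ξ) {r : ℕ} (hr : 2 ≤ r) {n i j : ℕ}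
    (h : fac (dig ξ r) n i = fac (dig ξ r) n j) : Fit ξ r n i j := by
  rw [fac_eq_iff] at h
  refine ⟨(⌊ξ * (r : ℝ) ^ j⌋₊ : ℤ) - (⌊ξ * (r : ℝ) ^ i⌋₊ : ℤ), ?_⟩
  have hD : ∀ s, s ≤ n → ((⌊ξ * (r : ℝ) ^ (j + s)⌋₊ : ℤ) - (⌊ξ * (r : ℝ) ^ (i + s)⌋₊ : ℤ)) =
      (r : ℤ) ^ s * ((⌊ξ * (r : ℝ) ^ j⌋₊ : ℤ) - (⌊ξ * (r : ℝ) ^ i⌋₊ : ℤ)) := by
    intro s
    induction s with
    | zero => intro _; simp
    | succ s ih =>
      intro hs
      have e1 := fl_step ξ hr (j + s)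
      have e2 := fl_step ξ hr (i + s)
      rw [show j + (s + 1) = j + s + 1 by omega, show i + (s + 1) = i + s + 1 by omega, e1, e2,
        h s (by omega)]
      push_cast
      rw [pow_succ]
      linear_combination (r : ℤ) * ih (by omega)
  have hr0 : (0 : ℝ) < (r : ℝ) ^ n := by positivity
  rw [le_div_iff₀ hr0]
  have h1 := fl_bd h0 r (j + n)
  have h2 := fl_bd h0 r (i + n)
  have h3 : (((⌊ξ * (r : ℝ) ^ (j + n)⌋₊ : ℝ)) - (⌊ξ * (r : ℝ) ^ (i + n)⌋₊ : ℝ)) =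
      (r : ℝ) ^ n * ((⌊ξ * (r : ℝ) ^ j⌋₊ : ℝ) - (⌊ξ * (r : ℝ) ^ i⌋₊ : ℝ)) := by
    exact_mod_cast hD n le_rfl
  rw [← abs_of_pos hr0, ← abs_mul]
  have h4 : (((r : ℝ) ^ j - (r : ℝ) ^ i) * ξ -
      (((⌊ξ * (r : ℝ) ^ j⌋₊ : ℤ) - (⌊ξ * (r : ℝ) ^ i⌋₊ : ℤ) : ℤ) : ℝ)) * (r : ℝ) ^ n =
      (ξ * (r : ℝ) ^ (j + n) - (⌊ξ * (r : ℝ) ^ (j + n)⌋₊ : ℝ)) -
      (ξ * (r : ℝ) ^ (i + n) - (⌊ξ * (r : ℝ) ^ (i + n)⌋₊ : ℝ)) := by
    push_cast
    have e1 : (r : ℝ) ^ (j + n) = (r : ℝ) ^ j * (r : ℝ) ^ n := pow_add _ _ _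
    have e2 : (r : ℝ) ^ (i + n) = (r : ℝ) ^ i * (r : ℝ) ^ n := pow_add _ _ _
    linear_combination h3 - ξ * e1 + ξ * e2
  rw [h4, abs_le]
  constructor <;> linarith [h1.1, h1.2, h2.1, h2.2]

theorem exists_fit {ξ : ℝ} (h0 : 0 < ξ) {r : ℕ} (hr : 2 ≤ r) {c : ℕ}
    (hc : ∀ n, cpx (dig ξ r) n ≤ n + c) (n : ℕ) :
    ∃ i j, i < j ∧ j ≤ n + c ∧ Fit ξ r n i j := by
  obtain ⟨i, j, _, hij, hj, he⟩ := exists_rep (dig_lt ξ hr) n 0
  have := hc n
  exact ⟨i, j, hij, by omega, fit_of_fac h0 hr he⟩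

/-- No long factor with a fixed period. -/
theorem no_long_period {w : ℕ → ℕ} {b : ℕ} (hb : ∀ i, w i < b) (hn : NEP w) {m₀ : ℕ}
    (hU : ∀ m, m₀ ≤ m → Uniq w m) {δ : ℕ} (hδ : 1 ≤ δ) :
    ∃ W, ∀ m, ∃ t, t < W ∧ w (m + t + δ) ≠ w (m + t) := by
  classical
  set L := max m₀ δ with hL
  have hLm : m₀ ≤ L := le_max_left _ _
  have hLd : δ ≤ L := le_max_right _ _
  obtain ⟨N, hN⟩ := exists_late hb L
  set v : ℕ → ℕ := fun i => w (N + i) with hv
  have hvb : ∀ i, v i < b := fun i => hb _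
  have hvn : NEP v := by
    intro M T hT
    obtain ⟨i, hi, hne⟩ := hn (N + M) T hT
    refine ⟨i - N, by omega, ?_⟩
    simp only [hv]
    rw [show N + (i - N + T) = i + T by omega, show N + (i - N) = i by omega]
    exact hne
  have hvf : ∀ i, fac v L i = fac w L (N + i) := by
    intro i
    funext j
    simp only [fac, hv]
    rw [Nat.add_assoc]
  have hc := cpx_ge hvb hvn L
  have hfin : (Set.range (fac v L)).Finite := fin_range hvb L
  have : Finite (Set.range (fac v L)) := hfin.to_subtype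
  have hrec : ∀ f : Set.range (fac v L), ∃ B, ∀ l, ∃ s, s ≤ B ∧ fac w L (l + s) = f.1 := by
    rintro ⟨_, ⟨i, rfl⟩⟩
    obtain ⟨B, hB⟩ := recurrent hb hn hU hLm (hN (N + i) (by omega))
    refine ⟨B, fun l => ?_⟩
    obtain ⟨s, hs, he⟩ := hB l
    exact ⟨s, hs, by rw [he, ← hvf]⟩
  choose Bf hBf using hrec
  obtain ⟨Bm, hBm⟩ : ∃ Bm, ∀ f, Bf f ≤ Bm := by
    obtain ⟨M, hM⟩ := (Set.finite_range Bf).bddAbove
    exact ⟨M, fun f => hM ⟨f, rfl⟩⟩
  refine ⟨Bm + L + δ, fun m => ?_⟩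
  by_contra hcon
  push Not at hcon
  have hper : ∀ s, s ≤ Bm + δ → fac w L (m + s) = fac w L (m + s % δ) := by
    intro s
    induction s using Nat.strong_induction_on with
    | _ s ih =>
      intro hs
      rcases lt_or_ge s δ with h | h
      · rw [Nat.mod_eq_of_lt h]
      · have h1 := ih (s - δ) (by omega) (by omega)
        have h2 : s % δ = (s - δ) % δ := by
          rw [← Nat.mod_eq_sub_mod h]
        rw [h2, ← h1, fac_eq_iff]
        intro t ht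
        have h3 := hcon (s - δ + t) (by omega)
        rw [show m + (s - δ + t) + δ = m + s + t by omega,
          show m + (s - δ + t) = m + (s - δ) + t by omega] at h3
        exact h3
  choose sf hsf1 hsf2 using fun f => hBf f m
  let Φ : Set.range (fac v L) → Fin δ := fun f => ⟨sf f % δ, Nat.mod_lt _ (by omega)⟩
  have hΦ : Function.Injective Φ := by
    intro f f' h
    have h1 : sf f % δ = sf f' % δ := congrArg Fin.val h
    apply Subtype.ext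
    rw [← hsf2 f, ← hsf2 f', hper (sf f) (by have := hsf1 f; have := hBm f; omega),
      hper (sf f') (by have := hsf1 f'; have := hBm f'; omega), h1]
  have hle := Nat.card_le_card_of_injective Φ hΦ
  rw [Nat.card_coe_set_eq, Nat.card_eq_fintype_card, Fintype.card_fin] at hle
  unfold cpx at hc
  omega

/-- The multiples `(r^(m+δ) - r^m) ξ` stay away from the integers. -/
theorem far_from_period {ξ : ℝ} (h0 : 0 < ξ) {r : ℕ} (hr : 2 ≤ r)
    (hW : ∀ δ, 1 ≤ δ → ∃ W, ∀ m, ∃ t, t < W ∧ dig ξ r (m + t + δ) ≠ dig ξ r (m + t))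
    {δ : ℕ} (hδ : 1 ≤ δ) :
    ∃ M : ℕ, ∀ (m : ℕ) (A : ℤ),
      1 / (r : ℝ) ^ M < |((r : ℝ) ^ (m + δ) - (r : ℝ) ^ m) * ξ - (A : ℝ)| := by
  obtain ⟨Wd, hWd⟩ := hW δ hδ
  obtain ⟨W1, hW1⟩ := hW 1 le_rfl
  refine ⟨Wd + W1 + 2, fun m A => ?_⟩
  by_contra hcon
  push Not at hcon
  set M := Wd + W1 + 2 with hM
  set w := dig ξ r with hw
  set e : ℕ → ℤ := fun s => (⌊ξ * (r : ℝ) ^ (m + δ + s)⌋₊ : ℤ) - (r : ℤ) ^ s * A -
    (⌊ξ * (r : ℝ) ^ (m + s)⌋₊ : ℤ) with he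
  have hstep : ∀ s, e (s + 1) = r * e s + ((w (m + s + δ) : ℤ) - w (m + s)) := by
    intro s
    have e1 := fl_step ξ hr (m + δ + s)
    have e2 := fl_step ξ hr (m + s)
    simp only [he]
    rw [show m + δ + (s + 1) = m + δ + s + 1 by omega, show m + (s + 1) = m + s + 1 by omega,
      e1, e2, show m + s + δ = m + δ + s by omega]
    push_cast
    ring
  have hr2 : (2 : ℝ) ≤ r := by exact_mod_cast hr
  have hbd : ∀ s, s < M → |e s| ≤ 1 := by
    intro s hs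
    have h1 := fl_bd h0 r (m + δ + s)
    have h2 := fl_bd h0 r (m + s)
    have hθ : |(r : ℝ) ^ s * (((r : ℝ) ^ (m + δ) - (r : ℝ) ^ m) * ξ - (A : ℝ))| ≤ 1 / 2 := by
      rw [abs_mul, abs_of_pos (by positivity : (0 : ℝ) < (r : ℝ) ^ s)]
      calc (r : ℝ) ^ s * |((r : ℝ) ^ (m + δ) - (r : ℝ) ^ m) * ξ - (A : ℝ)|
          ≤ (r : ℝ) ^ s * (1 / (r : ℝ) ^ M) := by gcongr
        _ ≤ 1 / 2 := by
            rw [mul_one_div, div_le_div_iff₀ (by positivity) (by norm_num)]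
            have h3 : (r : ℝ) ^ s * r ≤ (r : ℝ) ^ M := by
              rw [← pow_succ]
              exact pow_le_pow_right₀ (by linarith) (by omega)
            have h4 : (r : ℝ) ^ s * 2 ≤ (r : ℝ) ^ s * r := by gcongr
            linarith
    have h5 : (e s : ℝ) = (r : ℝ) ^ s * (((r : ℝ) ^ (m + δ) - (r : ℝ) ^ m) * ξ - (A : ℝ)) -
        (ξ * (r : ℝ) ^ (m + δ + s) - (⌊ξ * (r : ℝ) ^ (m + δ + s)⌋₊ : ℝ)) +
        (ξ * (r : ℝ) ^ (m + s) - (⌊ξ * (r : ℝ) ^ (m + s)⌋₊ : ℝ)) := by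
      simp only [he]
      push_cast
      rw [pow_add, pow_add, pow_add]
      ring
    rw [abs_le] at hθ
    have h6 : |(e s : ℝ)| < 2 := by
      rw [h5, abs_lt]
      constructor <;> linarith [h1.1, h1.2, h2.1, h2.2, hθ.1, hθ.2]
    have h7 : |e s| < 2 := by exact_mod_cast h6
    omega
  have hwlt : ∀ i, (w i : ℤ) < r := fun i => by exact_mod_cast dig_lt ξ hr i
  have hw0 : ∀ i, (0 : ℤ) ≤ w i := fun i => by positivity
  have hrz : (2 : ℤ) ≤ r := by exact_mod_cast hr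
  by_cases hz : ∀ s, s ≤ Wd → e s = 0
  · obtain ⟨t, ht, hne⟩ := hWd m
    have h1 := hstep t
    rw [hz t (by omega), hz (t + 1) (by omega)] at h1
    apply hne
    have : (w (m + t + δ) : ℤ) = w (m + t) := by linarith
    exact_mod_cast this
  push Not at hz
  obtain ⟨s₀, hs₀, hes⟩ := hz
  have hs1 := hbd s₀ (by omega)
  have hcase : e s₀ = 1 ∨ e s₀ = -1 := by
    rw [abs_le] at hs1
    omega
  rcases hcase with h1 | h1
  · have hall : ∀ t, s₀ + t < M → e (s₀ + t) = 1 := by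
      intro t
      induction t with
      | zero => intro _; simpa using h1
      | succ t ih =>
        intro ht
        have h2 := hstep (s₀ + t)
        rw [ih (by omega)] at h2
        have h3 := hbd (s₀ + t + 1) (by omega)
        rw [abs_le] at h3
        have h4 := hwlt (m + (s₀ + t))
        have h5 := hw0 (m + (s₀ + t) + δ)
        rw [show s₀ + (t + 1) = s₀ + t + 1 by omega]
        omega
    have hdig : ∀ t, s₀ + t + 1 < M → (w (m + (s₀ + t)) : ℤ) = r - 1 := by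
      intro t ht
      have h2 := hstep (s₀ + t)
      rw [hall t (by omega)] at h2
      have h3 := hall (t + 1) (by omega)
      rw [show s₀ + (t + 1) = s₀ + t + 1 by omega] at h3
      rw [h3] at h2
      have h4 := hwlt (m + (s₀ + t))
      have h5 := hw0 (m + (s₀ + t) + δ)
      omega
    obtain ⟨t, ht, hne⟩ := hW1 (m + s₀)
    apply hne
    have h2 := hdig t (by omega)
    have h3 := hdig (t + 1) (by omega)
    rw [show m + (s₀ + (t + 1)) = m + s₀ + t + 1 by omega] at h3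
    rw [show m + (s₀ + t) = m + s₀ + t by omega] at h2
    have : (w (m + s₀ + t + 1) : ℤ) = w (m + s₀ + t) := by linarith
    exact_mod_cast this
  · have hall : ∀ t, s₀ + t < M → e (s₀ + t) = -1 := by
      intro t
      induction t with
      | zero => intro _; simpa using h1
      | succ t ih =>
        intro ht
        have h2 := hstep (s₀ + t)
        rw [ih (by omega)] at h2
        have h3 := hbd (s₀ + t + 1) (by omega)
        rw [abs_le] at h3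
        have h4 := hwlt (m + (s₀ + t) + δ)
        have h5 := hw0 (m + (s₀ + t))
        rw [show s₀ + (t + 1) = s₀ + t + 1 by omega]
        omega
    have hdig : ∀ t, s₀ + t + 1 < M → (w (m + (s₀ + t)) : ℤ) = 0 := by
      intro t ht
      have h2 := hstep (s₀ + t)
      rw [hall t (by omega)] at h2
      have h3 := hall (t + 1) (by omega)
      rw [show s₀ + (t + 1) = s₀ + t + 1 by omega] at h3
      rw [h3] at h2
      have h4 := hwlt (m + (s₀ + t) + δ)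
      have h5 := hw0 (m + (s₀ + t))
      omega
    obtain ⟨t, ht, hne⟩ := hW1 (m + s₀)
    apply hne
    have h2 := hdig t (by omega)
    have h3 := hdig (t + 1) (by omega)
    rw [show m + (s₀ + (t + 1)) = m + s₀ + t + 1 by omega] at h3
    rw [show m + (s₀ + t) = m + s₀ + t by omega] at h2
    have : (w (m + s₀ + t + 1) : ℤ) = w (m + s₀ + t) := by linarith
    exact_mod_cast this

end Pool.Agent.Lib_helper53.PIX
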