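import Pool.Agent.Lib_helper53.PIX.Seq

set_option autoImplicit false

namespace Pool.Agent.Lib_helper53.PIX

open Pool.Agent.Lib_helper53.PIB

theorem chn_ge {C μ : ℕ} {P : ℕ → ℤ} {d : ℕ → ℕ} (hc : Chn C μ P d) (k : ℕ) : k < d k := by
  induction k with
  | zero => exact hc.pos 0
  | succ k ih =>
    have := hc.lt k
    omega

theorem chn_mono {C C' μ : ℕ} {P : ℕ → ℤ} {d : ℕ → ℕ} (hc : Chn C μ P d) (h : C ≤ C') :
    Chn C' μ P d :=
  ⟨hc.cop, hc.pos, hc.lt, hc.det_ne, fun k => (hc.det_le k).trans (by exact_mod_cast h),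
    fun k => (hc.growth k).trans (Nat.mul_le_mul_right _ h)⟩

theorem gap_of_vg {ξ : ℝ} {r C C' μ : ℕ} {P : ℕ → ℤ} {d g u h : ℕ → ℕ} (hr : 2 ≤ r)
    (hfar : ∀ δ, 1 ≤ δ → ∃ M : ℕ, ∀ (m : ℕ) (A : ℤ),
      1 / (r : ℝ) ^ M < |((r : ℝ) ^ (m + δ) - (r : ℝ) ^ m) * ξ - (A : ℝ)|)
    (hV : ∀ k, VG ξ C (P k) (d k)) (hC : 1 ≤ C) (hc : Chn C' μ P d) (hR : Rep r C' d g u h) :
    Gap u h := by
  intro K
  obtain ⟨M, hM⟩ := far_bound hr hfar (2 * K + C' + 1)
  refine ⟨C' * r ^ (K + M + 2), fun k hk hu hu' => ?_⟩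
  by_contra hle
  push Not at hle
  have hdk : C' * r ^ (K + M + 2) ≤ d k := hk.trans (chn_ge hc k).le
  have hap : ∀ l, k ≤ l → |((r : ℝ) ^ (h l) - (r : ℝ) ^ (u l)) * ξ - ((g l * P l : ℤ) : ℝ)| ≤
      1 / (r : ℝ) ^ (K + M + 2) := by
    intro l hl
    have hdl : C' * r ^ (K + M + 2) ≤ d l := by
      refine hdk.trans ?_
      exact (strictMono_nat_of_lt_succ hc.lt).monotone hl
    have hd1 := hc.pos l
    have hE : (r : ℝ) ^ (h l) - (r : ℝ) ^ (u l) = g l * d l := by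
      have h1 : ((g l * d l + r ^ (u l) : ℕ) : ℝ) = ((r ^ (h l) : ℕ) : ℝ) := by
        rw [hR.eq l]
      push_cast at h1
      linarith
    have e : ((r : ℝ) ^ (h l) - (r : ℝ) ^ (u l)) * ξ - ((g l * P l : ℤ) : ℝ) =
        g l * ((d l : ℝ) * ξ - P l) := by
      rw [hE]
      push_cast
      ring
    have hd0 : (0 : ℝ) < d l := by exact_mod_cast hd1
    have hC1 : (1 : ℝ) ≤ C := by exact_mod_cast hC
    have h2 := (hV l).2.2
    have h3 : |(d l : ℝ) * ξ - (P l : ℝ)| ≤ 1 / d l := by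
      rw [le_div_iff₀ hd0]
      have h4 : 0 ≤ |(d l : ℝ) * ξ - (P l : ℝ)| * d l := by positivity
      nlinarith
    rw [e, abs_mul, Nat.abs_cast]
    have hgC : (g l : ℝ) ≤ C' := by exact_mod_cast hR.gC l
    calc (g l : ℝ) * |(d l : ℝ) * ξ - (P l : ℝ)| ≤ C' * (1 / d l) := by gcongr
      _ ≤ 1 / (r : ℝ) ^ (K + M + 2) := by
          rw [mul_one_div, div_le_div_iff₀ hd0 (by positivity), one_mul]
          exact_mod_cast hdl
  have hA := hap k le_rfl
  have hB := hap (k + 1) (by omega)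
  have hEz : ∀ l, (r : ℤ) ^ (h l) - (r : ℤ) ^ (u l) = g l * d l := by
    intro l
    have h1 : ((g l * d l + r ^ (u l) : ℕ) : ℤ) = ((r ^ (h l) : ℕ) : ℤ) := by
      rw [hR.eq l]
    push_cast at h1
    linarith
  have hhk : h k ≤ h (k + 1) + (K + C' + 1) := by
    have h1 : r ^ (h k) ≤ r ^ (h (k + 1) + (K + C' + 1)) := by
      have e1 := hR.eq k
      have e2 := hR.eq (k + 1)
      have l1 := hc.lt k
      have g1 := hR.gC k
      have g2 := hR.g1 (k + 1)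
      have p1 : r ^ (u k) ≤ r ^ K := Nat.pow_le_pow_right (by omega) hu
      have p2 : d (k + 1) ≤ r ^ (h (k + 1)) := by
        calc d (k + 1) = 1 * d (k + 1) := (one_mul _).symm
          _ ≤ g (k + 1) * d (k + 1) := Nat.mul_le_mul_right _ g2
          _ ≤ r ^ (h (k + 1)) := by omega
      have p3 : C' < r ^ C' := Nat.lt_pow_self (by omega)
      have p4 : 1 ≤ r ^ (h (k + 1)) := Nat.one_le_pow _ _ (by omega)
      have p5 : 1 ≤ r ^ K := Nat.one_le_pow _ _ (by omega)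
      have p6 : 1 ≤ r ^ C' := Nat.one_le_pow _ _ (by omega)
      calc r ^ (h k) = g k * d k + r ^ (u k) := e1.symm
        _ ≤ C' * r ^ (h (k + 1)) + r ^ K := by
            apply Nat.add_le_add _ p1
            exact Nat.mul_le_mul g1 (l1.le.trans p2)
        _ ≤ r ^ C' * r ^ (h (k + 1)) * r ^ K + r ^ C' * r ^ (h (k + 1)) * r ^ K := by
            apply Nat.add_le_add
            · calc C' * r ^ (h (k + 1)) ≤ r ^ C' * r ^ (h (k + 1)) := Nat.mul_le_mul_right _ p3.le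
                _ = r ^ C' * r ^ (h (k + 1)) * 1 := (mul_one _).symm
                _ ≤ _ := Nat.mul_le_mul_left _ p5
            · calc r ^ K = 1 * 1 * r ^ K := by ring
                _ ≤ _ := Nat.mul_le_mul_right _ (Nat.mul_le_mul p6 p4)
        _ = 2 * (r ^ C' * r ^ (h (k + 1)) * r ^ K) := by ring
        _ ≤ r * (r ^ C' * r ^ (h (k + 1)) * r ^ K) := Nat.mul_le_mul_right _ hr
        _ = r ^ (h (k + 1) + (K + C' + 1)) := by
            rw [pow_add, pow_add, pow_add]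
            ring
    exact (Nat.pow_le_pow_iff_right (by omega)).1 h1
  refine pair_far (A := g k * P k) (B := g (k + 1) * P (k + 1)) hr hM le_rfl hu hu'
    (hR.uh k) (hR.uh (k + 1)) ?_ ?_ le_rfl hA hB ?_
  · omega
  · omega
  · rw [hEz, hEz]
    intro h0
    have h1 : ((g k : ℤ) * g (k + 1)) * (P (k + 1) * d k - P k * d (k + 1)) = 0 := by
      linear_combination -h0
    have h2 : ((g k : ℤ) * g (k + 1)) ≠ 0 := by
      have g1 := hR.g1 k
      have g2 := hR.g1 (k + 1)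
      positivity
    exact hc.det_ne k ((mul_eq_zero.1 h1).resolve_left h2)

/-- what an exceptional base gives -/
theorem exc_far {ξ : ℝ} (h0 : 0 < ξ) (hξ : Irrational ξ) {r : ℕ} (hr : 2 ≤ r) {c : ℕ}
    (hc : ∀ n, cpx (dig ξ r) n ≤ n + c) :
    ∀ δ, 1 ≤ δ → ∃ M : ℕ, ∀ (m : ℕ) (A : ℤ),
      1 / (r : ℝ) ^ M < |((r : ℝ) ^ (m + δ) - (r : ℝ) ^ m) * ξ - (A : ℝ)| := by
  have hb := dig_lt ξ hr
  have hn := nep_dig h0 hξ hr
  obtain ⟨c', m₀, hc'⟩ := eventually_eq hb hn ⟨c, hc⟩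
  have hU : ∀ m, m₀ ≤ m → Uniq (dig ξ r) m := by
    intro m hm
    apply uniq_of_cpx hb
    rw [hc' (m + 1) (by omega), hc' m hm]
    omega
  intro δ hδ
  exact far_from_period h0 hr (fun δ hδ => no_long_period hb hn hU hδ) hδ

end Pool.Agent.Lib_helper53.PIX
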