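import Mathlib

set_option autoImplicit false

namespace Pool.Agent.Lib_helper53.PIX

/-- two primes separating `r` and `s` -/
lemma exists_sep {r s : ℕ} (hr : 2 ≤ r) (hs : 2 ≤ s)
    (hind : ∀ x y : ℕ, 1 ≤ x → 1 ≤ y → r ^ x ≠ s ^ y) :
    ∃ p q : ℕ, p.Prime ∧ q.Prime ∧
      r.factorization p * s.factorization q ≠ r.factorization q * s.factorization p := by
  by_contra hcon
  push Not at hcon
  obtain ⟨p, hp, hpr⟩ := Nat.exists_prime_and_dvd (show r ≠ 1 by omega)
  have ha : 1 ≤ r.factorization p :=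
    (hp.dvd_iff_one_le_factorization (by omega)).1 hpr
  have hfac : ∀ q, (s ^ r.factorization p).factorization q
      = (r ^ s.factorization p).factorization q := by
    intro q
    rw [Nat.factorization_pow, Nat.factorization_pow]
    simp only [Finsupp.smul_apply, smul_eq_mul]
    by_cases hq : q.Prime
    · rw [hcon p q hp hq, mul_comm]
    · rw [Nat.factorization_eq_zero_of_not_prime _ hq, Nat.factorization_eq_zero_of_not_prime _ hq]
      simp
  have heq : s ^ r.factorization p = r ^ s.factorization p :=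
    Nat.eq_of_factorization_eq (pow_ne_zero _ (by omega)) (pow_ne_zero _ (by omega)) hfac
  rcases Nat.eq_zero_or_pos (s.factorization p) with h0 | h0
  · rw [h0, pow_zero] at heq
    have : 1 < s ^ r.factorization p := Nat.one_lt_pow (by omega) (by omega)
    omega
  · exact hind _ _ h0 ha heq.symm

lemma fac_le_log (p n : ℕ) : n.factorization p ≤ Nat.log 2 n := by
  by_cases hp : p.Prime
  · rcases Nat.eq_zero_or_pos n with h | h
    · simp [h]
    have h1 : p ^ n.factorization p ≤ n := Nat.ordProj_le p (by omega)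
    have h2 : 2 ^ n.factorization p ≤ n :=
      le_trans (Nat.pow_le_pow_left hp.two_le _) h1
    exact Nat.le_log_of_pow_le (by norm_num) h2
  · rw [Nat.factorization_eq_zero_of_not_prime _ hp]
    exact Nat.zero_le _

/-- lifting the exponent -/
lemma fac_pow_sub_one (r p : ℕ) (hr : 2 ≤ r) (hp : p.Prime) :
    ∃ c : ℕ, ∀ v : ℕ, 1 ≤ v → (r ^ v - 1).factorization p ≤ c + Nat.log 2 v := by
  have : Fact p.Prime := ⟨hp⟩
  have hpos : ∀ v : ℕ, 1 ≤ v → 1 < r ^ v := fun v hv => Nat.one_lt_pow (by omega) (by omega)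
  by_cases hpr : p ∣ r
  · refine ⟨0, fun v hv => ?_⟩
    have : ¬ p ∣ r ^ v - 1 := by
      intro h
      have h1 : p ∣ r ^ v := dvd_pow hpr (by omega)
      have h2 : p ∣ r ^ v - (r ^ v - 1) := Nat.dvd_sub h1 h
      have h3 : r ^ v - (r ^ v - 1) = 1 := by have := hpos v hv; omega
      rw [h3] at h2
      exact hp.one_lt.ne' (Nat.dvd_one.1 h2)
    rw [Nat.factorization_eq_zero_of_not_dvd this]
    exact Nat.zero_le _
  rcases hp.eq_two_or_odd' with h2 | hodd
  · subst h2
    refine ⟨padicValNat 2 (r + 1) + padicValNat 2 (r - 1) + 1, fun v hv => ?_⟩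
    have hd : r ^ v - 1 ∣ r ^ (2 * v) - 1 := by
      have := Nat.sub_dvd_pow_sub_pow (r ^ v) 1 2
      rwa [one_pow, ← pow_mul, mul_comm v 2] at this
    have hne : r ^ (2 * v) - 1 ≠ 0 := by have := hpos (2 * v) (by omega); omega
    have hne' : r ^ v - 1 ≠ 0 := by have := hpos v hv; omega
    have h1 : (r ^ v - 1).factorization 2 ≤ (r ^ (2 * v) - 1).factorization 2 :=
      (Nat.factorization_le_iff_dvd hne' hne).2 hd 2
    have hro : r % 2 = 1 := by omega
    have h2 := padicValNat.pow_two_sub_pow (x := r) (y := 1) (by omega) (by omega) hpr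
      (n := 2 * v) (by omega) (even_two_mul v)
    rw [one_pow] at h2
    have h3 : padicValNat 2 (2 * v) = 1 + padicValNat 2 v := by
      rw [padicValNat.mul (by norm_num) (by omega)]
      simp
    have h4 : padicValNat 2 v ≤ Nat.log 2 v := by
      have := fac_le_log 2 v
      rwa [Nat.factorization_def _ hp] at this
    rw [Nat.factorization_def _ hp] at h1
    rw [Nat.factorization_def _ hp] at h1
    rw [Nat.factorization_def _ hp]
    omega
  · refine ⟨padicValNat p (r ^ (p - 1) - 1), fun v hv => ?_⟩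
    have hp1 : 1 ≤ p - 1 := by have := hp.two_le; omega
    have hd : r ^ v - 1 ∣ (r ^ (p - 1)) ^ v - 1 := by
      have := Nat.sub_dvd_pow_sub_pow (r ^ v) 1 (p - 1)
      rwa [one_pow, ← pow_mul, mul_comm v, pow_mul] at this
    have hne' : r ^ v - 1 ≠ 0 := by have := hpos v hv; omega
    have hR : 1 < r ^ (p - 1) := hpos _ hp1
    have hne : (r ^ (p - 1)) ^ v - 1 ≠ 0 := by
      have : 1 < (r ^ (p - 1)) ^ v := Nat.one_lt_pow (by omega) hR
      omega
    have h1 : (r ^ v - 1).factorization p ≤ ((r ^ (p - 1)) ^ v - 1).factorization p :=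
      (Nat.factorization_le_iff_dvd hne' hne).2 hd p
    have hcop : Nat.Coprime r p := ((hp.coprime_iff_not_dvd).2 hpr).symm
    have hfer : p ∣ r ^ (p - 1) - 1 := by
      have := Nat.ModEq.pow_totient hcop
      rw [Nat.totient_prime hp] at this
      exact (Nat.modEq_iff_dvd' (by omega)).1 this.symm
    have hnR : ¬ p ∣ r ^ (p - 1) := fun h => hpr (hp.dvd_of_dvd_pow h)
    have h2 := padicValNat.pow_sub_pow (p := p) (hp1 := hodd) (x := r ^ (p - 1)) (y := 1) hR hfer hnR
      (n := v) (by omega)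
    rw [one_pow] at h2
    have h4 : padicValNat p v ≤ Nat.log 2 v := by
      have := fac_le_log p v
      rwa [Nat.factorization_def _ hp] at this
    rw [Nat.factorization_def _ hp] at h1
    rw [Nat.factorization_def _ hp] at h1
    rw [Nat.factorization_def _ hp]
    omega

/-- Block V -/
theorem val_small {r s : ℕ} (hr : 2 ≤ r) (hs : 2 ≤ s)
    (hind : ∀ x y : ℕ, 1 ≤ x → 1 ≤ y → r ^ x ≠ s ^ y) (C₀ : ℕ) :
    ∃ C : ℕ, ∀ g g' u v u' v' : ℕ, 1 ≤ g → g ≤ C₀ → 1 ≤ g' → g' ≤ C₀ → 1 ≤ v → 1 ≤ v' →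
      g' * (r ^ u * (r ^ v - 1)) = g * (s ^ u' * (s ^ v' - 1)) →
      2 ^ u ≤ (C * v * v') ^ C ∧ 2 ^ u' ≤ (C * v * v') ^ C := by
  obtain ⟨p, q, hp, hq, hpq⟩ := exists_sep hr hs hind
  obtain ⟨c1, hc1⟩ := fac_pow_sub_one r p hr hp
  obtain ⟨c2, hc2⟩ := fac_pow_sub_one s p hs hp
  obtain ⟨c3, hc3⟩ := fac_pow_sub_one r q hr hq
  obtain ⟨c4, hc4⟩ := fac_pow_sub_one s q hs hq
  set a := r.factorization p with ha
  set b := s.factorization p with hb
  set c := r.factorization q with hc
  set d := s.factorization q with hd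
  set K := Nat.log 2 C₀ + c1 + c2 + c3 + c4 with hK
  refine ⟨2 ^ K + (a + b + c + d), ?_⟩
  intro g g' u v u' v' hg hgC hg' hgC' hv hv' heq
  have hrv : r ^ v - 1 ≠ 0 := by
    have : 1 < r ^ v := Nat.one_lt_pow (by omega) (by omega)
    omega
  have hsv : s ^ v' - 1 ≠ 0 := by
    have : 1 < s ^ v' := Nat.one_lt_pow (by omega) (by omega)
    omega
  have key : ∀ P : ℕ, g'.factorization P + (u * r.factorization P + (r ^ v - 1).factorization P)
      = g.factorization P + (u' * s.factorization P + (s ^ v' - 1).factorization P) := by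
    intro P
    have h := congrArg (fun n => n.factorization P) heq
    rw [Nat.factorization_mul (by omega) (mul_ne_zero (pow_ne_zero _ (by omega)) hrv),
      Nat.factorization_mul (pow_ne_zero _ (by omega)) hrv,
      Nat.factorization_mul (by omega) (mul_ne_zero (pow_ne_zero _ (by omega)) hsv),
      Nat.factorization_mul (pow_ne_zero _ (by omega)) hsv, Nat.factorization_pow,
      Nat.factorization_pow] at h
    simpa using h
  set B := K + Nat.log 2 v + Nat.log 2 v' with hB
  have hgl : ∀ P, g.factorization P ≤ Nat.log 2 C₀ := fun P =>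
    (fac_le_log P g).trans (Nat.log_mono_right hgC)
  have hgl' : ∀ P, g'.factorization P ≤ Nat.log 2 C₀ := fun P =>
    (fac_le_log P g').trans (Nat.log_mono_right hgC')
  have k1 := key p
  have k2 := key q
  have e1 := hc1 v hv
  have e2 := hc2 v' hv'
  have e3 := hc3 v hv
  have e4 := hc4 v' hv'
  have g1 := hgl p
  have g2 := hgl' p
  have g3 := hgl q
  have g4 := hgl' q
  rw [← ha, ← hb] at k1
  rw [← hc, ← hd] at k2
  have A1 : |(u : ℤ) * a - u' * b| ≤ B := by
    rw [abs_le]
    constructor <;> (push_cast [hB, hK]; zify at k1 e1 e2 g1 g2; omega)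
  have A2 : |(u : ℤ) * c - u' * d| ≤ B := by
    rw [abs_le]
    constructor <;> (push_cast [hB, hK]; zify at k2 e3 e4 g3 g4; omega)
  have hdet : (1 : ℤ) ≤ |(a : ℤ) * d - c * b| := by
    refine Int.one_le_abs (fun h => hpq ?_)
    have h2 : (a : ℤ) * d = c * b := by linarith
    exact_mod_cast h2
  have hu : (u : ℤ) ≤ B * (b + d) := by
    have h1 : |((u : ℤ) * a - u' * b) * d - (u * c - u' * d) * b| ≤ B * d + B * b := by
      refine (abs_sub _ _).trans ?_
      rw [abs_mul, abs_mul, Nat.abs_cast, Nat.abs_cast]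
      exact add_le_add (mul_le_mul_of_nonneg_right A1 (by positivity))
        (mul_le_mul_of_nonneg_right A2 (by positivity))
    have h2 : ((u : ℤ) * a - u' * b) * d - (u * c - u' * d) * b = u * (a * d - c * b) := by ring
    rw [h2, abs_mul, Nat.abs_cast] at h1
    have h3 : (u : ℤ) * 1 ≤ u * |(a : ℤ) * d - c * b| :=
      mul_le_mul_of_nonneg_left hdet (by positivity)
    linarith
  have hu' : (u' : ℤ) ≤ B * (a + c) := by
    have h1 : |((u : ℤ) * a - u' * b) * c - (u * c - u' * d) * a| ≤ B * c + B * a := by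
      refine (abs_sub _ _).trans ?_
      rw [abs_mul, abs_mul, Nat.abs_cast, Nat.abs_cast]
      exact add_le_add (mul_le_mul_of_nonneg_right A1 (by positivity))
        (mul_le_mul_of_nonneg_right A2 (by positivity))
    have h2 : ((u : ℤ) * a - u' * b) * c - (u * c - u' * d) * a = u' * (a * d - c * b) := by ring
    rw [h2, abs_mul, Nat.abs_cast] at h1
    have h3 : (u' : ℤ) * 1 ≤ u' * |(a : ℤ) * d - c * b| :=
      mul_le_mul_of_nonneg_left hdet (by positivity)
    linarith
  have hBpow : 2 ^ B ≤ 2 ^ K * v * v' := by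
    rw [hB, pow_add, pow_add]
    exact Nat.mul_le_mul (Nat.mul_le_mul le_rfl (Nat.pow_log_le_self 2 (by omega)))
      (Nat.pow_log_le_self 2 (by omega))
  have fin : ∀ w : ℕ, w ≤ B * (a + b + c + d) →
      2 ^ w ≤ ((2 ^ K + (a + b + c + d)) * v * v') ^ (2 ^ K + (a + b + c + d)) := by
    intro w hw
    calc 2 ^ w ≤ 2 ^ (B * (a + b + c + d)) := Nat.pow_le_pow_right (by norm_num) hw
      _ = (2 ^ B) ^ (a + b + c + d) := by rw [pow_mul]
      _ ≤ ((2 ^ K + (a + b + c + d)) * v * v') ^ (a + b + c + d) := by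
          refine Nat.pow_le_pow_left (hBpow.trans ?_) _
          exact Nat.mul_le_mul (Nat.mul_le_mul (Nat.le_add_right _ _) le_rfl) le_rfl
      _ ≤ _ := by
          refine Nat.pow_le_pow_right ?_ (Nat.le_add_left _ _)
          have : 0 < 2 ^ K := by positivity
          exact Nat.mul_pos (Nat.mul_pos (by omega) (by omega)) (by omega)
  refine ⟨fin u ?_, fin u' ?_⟩
  · have h : u ≤ B * (b + d) := by exact_mod_cast hu
    exact h.trans (Nat.mul_le_mul le_rfl (by omega))
  · have h : u' ≤ B * (a + c) := by exact_mod_cast hu'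
    exact h.trans (Nat.mul_le_mul le_rfl (by omega))

end Pool.Agent.Lib_helper53.PIX

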