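import Pool.Agent.Lib_helper53.PIX.Abs
import Pool.Agent.Lib_helper53.PIX.V

set_option autoImplicit false

namespace Pool.Agent.Lib_helper53.PIX

/-- exponentials beat powers -/
lemma exp_beats (A m : ℕ) : ∃ H : ℕ, ∀ h, H ≤ h → A * h ^ m < 2 ^ h := by
  have ht := tendsto_pow_const_div_const_pow_of_one_lt m (r := (2 : ℝ)) (by norm_num)
  have hpos : (0 : ℝ) < 1 / (A + 1) := by positivity
  have hev := ht.eventually (gt_mem_nhds hpos)
  obtain ⟨H, hH⟩ := Filter.eventually_atTop.1 hev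
  refine ⟨H, fun h hh => ?_⟩
  have h1 := hH h hh
  have h2 : (0 : ℝ) < 2 ^ h := by positivity
  rw [div_lt_div_iff₀ h2 (by positivity)] at h1
  have h3 : ((A * h ^ m : ℕ) : ℝ) < ((2 ^ h : ℕ) : ℝ) := by
    push_cast
    have : (0 : ℝ) ≤ (h : ℝ) ^ m := by positivity
    nlinarith
  exact_mod_cast h3

/-- `h` is bounded by a multiple of `h'` -/
lemma h_le {r s C : ℕ} {d g u h g' u' h' : ℕ → ℕ} (hr : 2 ≤ r) (hs : 2 ≤ s)
    (hd : ∀ k, 1 ≤ d k) (hR : Rep r C d g u h) (hR' : Rep s C d g' u' h') :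
    ∃ c : ℕ, ∀ k, h k ≤ c * h' k := by
  obtain ⟨a, ha⟩ : ∃ a : ℕ, s ≤ 2 ^ a := ⟨s, Nat.lt_two_pow_self.le⟩
  obtain ⟨b, hb⟩ : ∃ b : ℕ, 2 * C ≤ 2 ^ b := ⟨2 * C, Nat.lt_two_pow_self.le⟩
  refine ⟨a + b, fun k => ?_⟩
  have e1 := hR.eq k
  have e2 := hR'.eq k
  have hg1 := hR'.g1 k
  have hgC := hR.gC k
  have huh := hR.uh k
  have huh' := hR'.uh k
  -- r ^ h ≤ 2 g d
  have h1 : r ^ h k ≤ 2 * (g k * d k) := by
    have h2 : 2 * r ^ u k ≤ r ^ h k := by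
      calc 2 * r ^ u k ≤ r * r ^ u k := Nat.mul_le_mul_right _ hr
        _ = r ^ (u k + 1) := by ring
        _ ≤ r ^ h k := Nat.pow_le_pow_right (by omega) huh
    omega
  have h2 : g' k * d k ≤ s ^ h' k := by omega
  have h3 : d k ≤ s ^ h' k := le_trans (Nat.le_mul_of_pos_left _ (by omega)) h2
  have h4 : 2 ^ h k ≤ 2 ^ ((a + b) * h' k) := by
    calc 2 ^ h k ≤ r ^ h k := Nat.pow_le_pow_left hr _
      _ ≤ 2 * (g k * d k) := h1
      _ ≤ 2 * (C * s ^ h' k) := Nat.mul_le_mul_left _ (Nat.mul_le_mul hgC h3)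
      _ = (2 * C) * s ^ h' k := by ring
      _ ≤ 2 ^ b * (2 ^ a) ^ h' k := Nat.mul_le_mul hb (Nat.pow_le_pow_left ha _)
      _ = 2 ^ (b + a * h' k) := by rw [← pow_mul, ← pow_add]
      _ ≤ 2 ^ ((a + b) * h' k) := by
          apply Nat.pow_le_pow_right (by norm_num)
          have : b ≤ b * h' k := Nat.le_mul_of_pos_right _ (by omega)
          nlinarith
  exact (Nat.pow_le_pow_iff_right (by norm_num)).1 h4

lemma h_tendsto {r C : ℕ} {d g u h : ℕ → ℕ} (hr : 2 ≤ r) (hlt : ∀ k, d k < d (k + 1))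
    (hR : Rep r C d g u h) (H : ℕ) : ∃ k₀, ∀ k, k₀ ≤ k → H ≤ h k := by
  refine ⟨r ^ H, fun k hk => ?_⟩
  by_contra hc
  push Not at hc
  have hdk : k ≤ d k := by
    have : StrictMono d := strictMono_nat_of_lt_succ hlt
    exact this.id_le k
  have e1 := hR.eq k
  have hg1 := hR.g1 k
  have h1 : g k * d k < r ^ h k := by
    have : 0 < r ^ u k := by positivity
    omega
  have h2 : d k < r ^ h k := lt_of_le_of_lt (Nat.le_mul_of_pos_left _ (by omega)) h1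
  have h3 : r ^ h k ≤ r ^ H := Nat.pow_le_pow_right (by omega) hc.le
  omega

lemma small_aux {u h : ℕ → ℕ} (C c : ℕ) (hb : ∀ k, 2 ^ u k ≤ (C * h k * (c * h k)) ^ C)
    (hT : ∀ H, ∃ k₀, ∀ k, k₀ ≤ k → H ≤ h k) : Small u h := by
  intro N
  obtain ⟨H, hH⟩ := exp_beats (((C * c) ^ C) ^ N) (2 * C * N)
  obtain ⟨k₀, hk₀⟩ := hT H
  refine ⟨k₀, fun k hk => ?_⟩
  by_contra hc
  push Not at hc
  have h1 := hH (h k) (hk₀ k hk)
  have h2 : 2 ^ h k ≤ 2 ^ (N * u k) := Nat.pow_le_pow_right (by norm_num) hc.le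
  have h3 : 2 ^ (N * u k) ≤ ((C * h k * (c * h k)) ^ C) ^ N := by
    rw [mul_comm, pow_mul]
    exact Nat.pow_le_pow_left (hb k) N
  have h4 : ((C * h k * (c * h k)) ^ C) ^ N = ((C * c) ^ C) ^ N * h k ^ (2 * C * N) := by
    have : C * h k * (c * h k) = (C * c) * (h k) ^ 2 := by ring
    rw [this, mul_pow, mul_pow, ← pow_mul (h k), ← pow_mul (h k)]
  omega

/-- Block SM -/
theorem small_of_rep {r s C μ : ℕ} {P : ℕ → ℤ} {d g u h g' u' h' : ℕ → ℕ} (hr : 2 ≤ r)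
    (hs : 2 ≤ s) (hind : ∀ x y : ℕ, 1 ≤ x → 1 ≤ y → r ^ x ≠ s ^ y) (hc : Chn C μ P d)
    (hR : Rep r C d g u h) (hR' : Rep s C d g' u' h') : Small u h ∧ Small u' h' := by
  obtain ⟨C₁, hC₁⟩ := val_small hr hs hind C
  obtain ⟨c, hcc⟩ := h_le hr hs hc.pos hR hR'
  obtain ⟨c', hcc'⟩ := h_le hs hr hc.pos hR' hR
  have key : ∀ k, 2 ^ u k ≤ (C₁ * (h k - u k) * (h' k - u' k)) ^ C₁ ∧
      2 ^ u' k ≤ (C₁ * (h k - u k) * (h' k - u' k)) ^ C₁ := by
    intro k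
    have huh := hR.uh k
    have huh' := hR'.uh k
    refine hC₁ (g k) (g' k) (u k) (h k - u k) (u' k) (h' k - u' k) (hR.g1 k) (hR.gC k)
      (hR'.g1 k) (hR'.gC k) (by omega) (by omega) ?_
    have e1 : r ^ u k * (r ^ (h k - u k) - 1) = g k * d k := by
      rw [Nat.mul_sub, ← pow_add, mul_one, Nat.add_sub_cancel' huh.le]
      have := hR.eq k
      omega
    have e2 : s ^ u' k * (s ^ (h' k - u' k) - 1) = g' k * d k := by
      rw [Nat.mul_sub, ← pow_add, mul_one, Nat.add_sub_cancel' huh'.le]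
      have := hR'.eq k
      omega
    rw [e1, e2]; ring
  constructor
  · refine small_aux C₁ c' (fun k => (key k).1.trans ?_) (h_tendsto hr hc.lt hR)
    apply Nat.pow_le_pow_left
    exact Nat.mul_le_mul (Nat.mul_le_mul_left _ (Nat.sub_le _ _))
      ((Nat.sub_le _ _).trans (hcc' k))
  · refine small_aux C₁ c (fun k => (key k).2.trans ?_) (h_tendsto hs hc.lt hR')
    apply Nat.pow_le_pow_left
    calc C₁ * (h k - u k) * (h' k - u' k) ≤ C₁ * (c * h' k) * h' k :=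
        Nat.mul_le_mul (Nat.mul_le_mul_left _ ((Nat.sub_le _ _).trans (hcc k))) (Nat.sub_le _ _)
      _ = C₁ * h' k * (c * h' k) := by ring

/-- Block DEP -/
theorem common_root {r₀ : ℕ} (hr : 2 ≤ r₀) :
    ∃ a, 2 ≤ a ∧ ∀ s, 2 ≤ s → (∃ x y : ℕ, 1 ≤ x ∧ 1 ≤ y ∧ r₀ ^ x = s ^ y) → ∃ j, 1 ≤ j ∧ s = a ^ j := by
  classical
  -- the largest `i` such that `r₀` is an `i`-th power
  have hbd : ∀ i, (∃ a, r₀ = a ^ i) → i ≤ r₀ := by
    rintro i ⟨a, ha⟩
    have h2 : 2 ≤ a ∨ i = 0 := by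
      by_contra hcon
      push Not at hcon
      obtain ⟨h1, h2⟩ := hcon
      interval_cases a
      · rw [zero_pow h2] at ha; omega
      · rw [one_pow] at ha; omega
    rcases h2 with h2 | h2
    · have : 2 ^ i ≤ r₀ := by rw [ha]; exact Nat.pow_le_pow_left h2 i
      exact (Nat.lt_two_pow_self (n := i)).le.trans this
    · omega
  have hex : ∃ i, (∃ a, r₀ = a ^ i) := ⟨1, r₀, by simp⟩
  set i := Nat.findGreatest (fun i => ∃ a, r₀ = a ^ i) r₀ with hi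
  have hi1 : 1 ≤ i := Nat.le_findGreatest (by omega) ⟨r₀, by simp⟩
  have hip : ∃ a, r₀ = a ^ i :=
    Nat.findGreatest_spec (P := fun i => ∃ a, r₀ = a ^ i) (by omega : 1 ≤ r₀) ⟨r₀, by simp⟩
  obtain ⟨a, ha⟩ := hip
  have ha2 : 2 ≤ a := by
    by_contra hcon
    push Not at hcon
    interval_cases a
    · rw [zero_pow (by omega)] at ha; omega
    · rw [one_pow] at ha; omega
  refine ⟨a, ha2, ?_⟩
  rintro s hs ⟨x, y, hx, hy, hxy⟩
  have h1 : a ^ (i * x) = s ^ y := by rw [pow_mul, ← ha, hxy]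
  have hn : 1 ≤ i * x := Nat.mul_pos (by omega) (by omega)
  set g := Nat.gcd (i * x) y with hg
  have hg0 : 0 < g := Nat.gcd_pos_of_pos_left _ (by omega)
  obtain ⟨n', hn'⟩ := Nat.gcd_dvd_left (i * x) y
  obtain ⟨y', hy'⟩ := Nat.gcd_dvd_right (i * x) y
  rw [← hg] at hn' hy'
  have hcop : Nat.Coprime n' y' := by
    have := Nat.coprime_div_gcd_div_gcd (m := i * x) (n := y) (by rw [← hg]; exact hg0)
    rw [← hg] at this
    have e1 : i * x / g = n' := by rw [hn']; exact Nat.mul_div_cancel_left _ hg0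
    have e2 : y / g = y' := by rw [hy']; exact Nat.mul_div_cancel_left _ hg0
    rwa [e1, e2] at this
  have h2 : a ^ n' = s ^ y' := by
    have h3 : (a ^ n') ^ g = (s ^ y') ^ g := by
      rw [← pow_mul, ← pow_mul, mul_comm n' g, mul_comm y' g, ← hn', ← hy', h1]
    exact Nat.pow_left_injective hg0.ne' h3
  obtain ⟨t, ht1, ht2⟩ := Nat.exists_eq_pow_of_exponent_coprime_of_pow_eq_pow hcop h2
  have hy1 : 1 ≤ y' := by
    rcases Nat.eq_zero_or_pos y' with h | h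
    · rw [h] at hy'; omega
    · exact h
  have hn1 : 1 ≤ n' := by
    rcases Nat.eq_zero_or_pos n' with h | h
    · rw [h] at hn'; omega
    · exact h
  -- maximality
  have h4 : r₀ = t ^ (y' * i) := by rw [ha, ht1, pow_mul]
  have h5 : y' * i ≤ i := by
    rw [hi]
    exact Nat.le_findGreatest (hbd _ ⟨t, h4⟩) ⟨t, h4⟩
  have h6 : y' = 1 := by
    by_contra hne
    have : 2 ≤ y' := by omega
    nlinarith
  rw [h6, pow_one] at ht1
  exact ⟨n', hn1, by rw [ht1, ht2]⟩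

end Pool.Agent.Lib_helper53.PIX
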