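import Pool.Agent.Lib_helper53.PIX.Abs

set_option autoImplicit false

namespace Pool.Agent.Lib_helper53.PIX

/-! ### powers modulo `r ^ V - 1` -/

lemma tt_dvd_pow_mod (r V x : ℕ) : ((r : ℤ) ^ V - 1) ∣ (r : ℤ) ^ x - (r : ℤ) ^ (x % V) := by
  have h : (r : ℤ) ^ x = (r : ℤ) ^ (x % V) * ((r : ℤ) ^ V) ^ (x / V) := by
    rw [← pow_mul, ← pow_add]
    congr 1
    exact (Nat.mod_add_div x V).symm
  have h1 : ((r : ℤ) ^ V - 1) ∣ ((r : ℤ) ^ V) ^ (x / V) - 1 := by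
    simpa using sub_dvd_pow_sub_pow ((r : ℤ) ^ V) 1 (x / V)
  obtain ⟨c, hc⟩ := h1
  exact ⟨(r : ℤ) ^ (x % V) * c, by rw [h]; linear_combination (r : ℤ) ^ (x % V) * hc⟩

lemma tt_cop_pow (r V x : ℕ) (hV : 1 ≤ V) : IsCoprime ((r : ℤ) ^ V - 1) ((r : ℤ) ^ x) := by
  have h1 : IsCoprime ((r : ℤ) ^ V - 1) ((r : ℤ) ^ V) := ⟨-1, 1, by ring⟩
  have h2 : IsCoprime ((r : ℤ) ^ V - 1) (r : ℤ) :=
    IsCoprime.of_isCoprime_of_dvd_right h1 (dvd_pow_self _ (by omega))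
  exact h2.pow_right

lemma tt_two_pow_gt (r n : ℕ) (hr : 2 ≤ r) : (n : ℤ) + 1 ≤ (r : ℤ) ^ n := by
  have h := Nat.lt_pow_self (n := n) (show 1 < r by omega)
  exact_mod_cast h

lemma tt_pow_mono (r : ℕ) {m n : ℕ} (hr : 2 ≤ r) (h : m ≤ n) : (r : ℤ) ^ m ≤ (r : ℤ) ^ n := by
  exact_mod_cast Nat.pow_le_pow_right (by omega) h

lemma tt_pow_pos (r m : ℕ) (hr : 2 ≤ r) : (1 : ℤ) ≤ (r : ℤ) ^ m := by
  exact_mod_cast Nat.one_le_pow _ _ (by omega)

lemma tt_no_small {r V z B : ℕ} {G : ℤ} (hr : 2 ≤ r) (hG0 : G ≠ 0) (hGB : |G| ≤ B)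
    (hV : 2 * B + 2 ≤ V) (hz : 1 ≤ z) (hz2 : z ≤ V / 2)
    (hd : ((r : ℤ) ^ V - 1) ∣ G * ((r : ℤ) ^ z - 1)) : False := by
  have h1 : (2 : ℤ) ≤ (r : ℤ) ^ z := by
    have := tt_two_pow_gt r z hr
    have h2 : (1 : ℤ) ≤ z := by exact_mod_cast hz
    linarith
  have h2 : (r : ℤ) ^ z ≤ (r : ℤ) ^ (V / 2) := tt_pow_mono r hr hz2
  have h3 : (B : ℤ) + 2 ≤ (r : ℤ) ^ (V - V / 2) := by
    have h4 : (r : ℤ) ^ (B + 1) ≤ (r : ℤ) ^ (V - V / 2) := tt_pow_mono r hr (by omega)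
    have h5 := tt_two_pow_gt r (B + 1) hr
    push_cast at h5
    linarith
  have h4 : (r : ℤ) ^ V = (r : ℤ) ^ (V - V / 2) * (r : ℤ) ^ (V / 2) := by
    rw [← pow_add]
    congr 1
    omega
  have h5 : (1 : ℤ) ≤ (r : ℤ) ^ (V / 2) := tt_pow_pos r _ hr
  have h6 : |G * ((r : ℤ) ^ z - 1)| < (r : ℤ) ^ V - 1 := by
    rw [abs_mul, abs_of_nonneg (show (0 : ℤ) ≤ (r : ℤ) ^ z - 1 by linarith), h4]
    have h7 : |G| * ((r : ℤ) ^ z - 1) ≤ B * ((r : ℤ) ^ (V / 2) - 1) :=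
      mul_le_mul hGB (by linarith) (by linarith) (by positivity)
    have h8 : ((B : ℤ) + 2) * (r : ℤ) ^ (V / 2) ≤ (r : ℤ) ^ (V - V / 2) * (r : ℤ) ^ (V / 2) :=
      mul_le_mul_of_nonneg_right h3 (by positivity)
    have h9 : (0 : ℤ) ≤ B := by positivity
    nlinarith
  have h7 := Int.eq_zero_of_abs_lt_dvd hd h6
  rcases mul_eq_zero.1 h7 with h8 | h8
  · exact hG0 h8
  · linarith

lemma tt_no_diff {r V i j B : ℕ} {G : ℤ} (hr : 2 ≤ r) (hG0 : G ≠ 0) (hGB : |G| ≤ B)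
    (hV : 2 * B + 2 ≤ V) (hij : i < j) (hj : j < V)
    (hd : ((r : ℤ) ^ V - 1) ∣ G * ((r : ℤ) ^ j - (r : ℤ) ^ i)) : False := by
  have e : G * ((r : ℤ) ^ j - (r : ℤ) ^ i) = (r : ℤ) ^ i * (G * ((r : ℤ) ^ (j - i) - 1)) := by
    have : (r : ℤ) ^ j = (r : ℤ) ^ i * (r : ℤ) ^ (j - i) := by
      rw [← pow_add]
      congr 1
      omega
    rw [this]
    ring
  rw [e] at hd
  have h1 := (tt_cop_pow r V i (by omega)).dvd_of_dvd_mul_left hd
  by_cases hz : j - i ≤ V / 2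
  · exact tt_no_small hr hG0 hGB hV (by omega) hz h1
  · refine tt_no_small hr hG0 hGB hV (z := V - (j - i)) (by omega) (by omega) ?_
    obtain ⟨c, hc⟩ := h1
    have e2 : (r : ℤ) ^ V = (r : ℤ) ^ (V - (j - i)) * (r : ℤ) ^ (j - i) := by
      rw [← pow_add]
      congr 1
      omega
    refine ⟨G - (r : ℤ) ^ (V - (j - i)) * c, ?_⟩
    linear_combination (-(r : ℤ) ^ (V - (j - i))) * hc - G * e2

lemma tt_mod_of_dvd {r V x y B : ℕ} {G : ℤ} (hr : 2 ≤ r) (hG0 : G ≠ 0) (hGB : |G| ≤ B)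
    (hV : 2 * B + 2 ≤ V) (hd : ((r : ℤ) ^ V - 1) ∣ G * ((r : ℤ) ^ x - (r : ℤ) ^ y)) :
    x % V = y % V := by
  have h1 : ((r : ℤ) ^ V - 1) ∣ G * ((r : ℤ) ^ (x % V) - (r : ℤ) ^ (y % V)) := by
    have e : G * ((r : ℤ) ^ (x % V) - (r : ℤ) ^ (y % V)) =
        G * ((r : ℤ) ^ x - (r : ℤ) ^ y) - G * ((r : ℤ) ^ x - (r : ℤ) ^ (x % V))
          + G * ((r : ℤ) ^ y - (r : ℤ) ^ (y % V)) := by ring
    rw [e]
    exact dvd_add (dvd_sub hd (Dvd.dvd.mul_left (tt_dvd_pow_mod r V x) G))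
      (Dvd.dvd.mul_left (tt_dvd_pow_mod r V y) G)
  by_contra hne
  have hx : x % V < V := Nat.mod_lt _ (by omega)
  have hy : y % V < V := Nat.mod_lt _ (by omega)
  rcases Nat.lt_or_gt_of_ne hne with h | h
  · refine tt_no_diff hr hG0 hGB hV h hy ?_
    have e : G * ((r : ℤ) ^ (y % V) - (r : ℤ) ^ (x % V)) =
      -(G * ((r : ℤ) ^ (x % V) - (r : ℤ) ^ (y % V))) := by ring
    rw [e]
    exact (dvd_neg).2 h1
  · exact tt_no_diff hr hG0 hGB hV h hx h1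

/-- Case I -/
lemma tt_case_one {r C A : ℕ} {α β G : ℤ} {h0 u0 h1 u1 h2 u2 : ℕ} (hr : 2 ≤ r) (hα0 : α ≠ 0)
    (hαA : |α| ≤ A) (hβA : |β| ≤ A) (hG0 : G ≠ 0) (hGC : |G| ≤ C) (hu0 : u0 < h0) (hu1 : u1 < h1)
    (hu2 : u2 < h2)
    (hd : ((r : ℤ) ^ h1 - (r : ℤ) ^ u1) ∣
      G * (α * ((r : ℤ) ^ h2 - (r : ℤ) ^ u2) + β * ((r : ℤ) ^ h0 - (r : ℤ) ^ u0)))
    (h10 : u1 ≤ h0) (h12 : u1 ≤ h2)
    (hsm : (C : ℤ) * (A * ((r : ℤ) ^ u2 + (r : ℤ) ^ u0)) < (r : ℤ) ^ u1)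
    (hV : 2 * (C * A) + 2 ≤ h1 - u1) :
    α * (r : ℤ) ^ u2 + β * (r : ℤ) ^ u0 = 0 ∧ (h2 - u2) % (h1 - u1) = (h0 - u0) % (h1 - u1) := by
  have hp0 := tt_pow_pos r u0 hr
  have hp2 := tt_pow_pos r u2 hr
  have e1 : (r : ℤ) ^ h1 - (r : ℤ) ^ u1 = (r : ℤ) ^ u1 * ((r : ℤ) ^ (h1 - u1) - 1) := by
    have : (r : ℤ) ^ h1 = (r : ℤ) ^ u1 * (r : ℤ) ^ (h1 - u1) := by
      rw [← pow_add]
      congr 1
      omega
    rw [this]
    ring
  have hdu : (r : ℤ) ^ u1 ∣ G * (α * (r : ℤ) ^ u2 + β * (r : ℤ) ^ u0) := by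
    have h := (Dvd.intro _ e1.symm).trans hd
    have k2 : (r : ℤ) ^ u1 ∣ (r : ℤ) ^ h2 := pow_dvd_pow _ h12
    have k0 : (r : ℤ) ^ u1 ∣ (r : ℤ) ^ h0 := pow_dvd_pow _ h10
    have e : G * (α * (r : ℤ) ^ u2 + β * (r : ℤ) ^ u0) =
        G * α * (r : ℤ) ^ h2 + G * β * (r : ℤ) ^ h0
          - G * (α * ((r : ℤ) ^ h2 - (r : ℤ) ^ u2) + β * ((r : ℤ) ^ h0 - (r : ℤ) ^ u0)) := by ring
    rw [e]
    exact dvd_sub (dvd_add (Dvd.dvd.mul_left k2 _) (Dvd.dvd.mul_left k0 _)) h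
  have hz : α * (r : ℤ) ^ u2 + β * (r : ℤ) ^ u0 = 0 := by
    have hb : |G * (α * (r : ℤ) ^ u2 + β * (r : ℤ) ^ u0)| < (r : ℤ) ^ u1 := by
      rw [abs_mul]
      refine lt_of_le_of_lt (mul_le_mul hGC ?_ (abs_nonneg _) (by positivity)) hsm
      refine (abs_add_le _ _).trans ?_
      rw [abs_mul, abs_mul, abs_of_nonneg (show (0 : ℤ) ≤ (r : ℤ) ^ u2 by linarith),
        abs_of_nonneg (show (0 : ℤ) ≤ (r : ℤ) ^ u0 by linarith), mul_add]
      exact add_le_add (mul_le_mul_of_nonneg_right hαA (by linarith))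
        (mul_le_mul_of_nonneg_right hβA (by linarith))
    rcases mul_eq_zero.1 (Int.eq_zero_of_abs_lt_dvd hdu hb) with h | h
    · exact absurd h hG0
    · exact h
  refine ⟨hz, ?_⟩
  have e2 : G * (α * ((r : ℤ) ^ h2 - (r : ℤ) ^ u2) + β * ((r : ℤ) ^ h0 - (r : ℤ) ^ u0))
      = (r : ℤ) ^ u2 * (G * α * ((r : ℤ) ^ (h2 - u2) - (r : ℤ) ^ (h0 - u0))) := by
    have k2 : (r : ℤ) ^ h2 = (r : ℤ) ^ u2 * (r : ℤ) ^ (h2 - u2) := by
      rw [← pow_add]
      congr 1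
      omega
    have k0 : (r : ℤ) ^ h0 = (r : ℤ) ^ u0 * (r : ℤ) ^ (h0 - u0) := by
      rw [← pow_add]
      congr 1
      omega
    rw [k2, k0]
    linear_combination (G * (r : ℤ) ^ (h0 - u0) - G) * hz
  rw [e2, e1] at hd
  have h3 := (Dvd.intro_left _ rfl : ((r : ℤ) ^ (h1 - u1) - 1) ∣
    (r : ℤ) ^ u1 * ((r : ℤ) ^ (h1 - u1) - 1)).trans hd
  have h4 := (tt_cop_pow r (h1 - u1) u2 (by omega)).dvd_of_dvd_mul_left h3
  refine tt_mod_of_dvd hr (mul_ne_zero hG0 hα0) (B := C * A) ?_ hV h4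
  rw [abs_mul]
  push_cast
  exact mul_le_mul hGC hαA (abs_nonneg _) (by positivity)


/-- a sum of four powers which is divisible by `r ^ V - 1` and small is zero -/
lemma tt_four_zero {r V K C A : ℕ} {α β G : ℤ} {x y z t : ℕ} (hr : 2 ≤ r)
    (hαA : |α| ≤ A) (hβA : |β| ≤ A) (hG0 : G ≠ 0) (hGC : |G| ≤ C)
    (hK : 4 * (C * A) + 2 ≤ K) (hKV : K ≤ V) (hx : x ≤ V - K) (hy : y ≤ V - K) (hz : z ≤ V - K)
    (ht : t ≤ V - K)
    (hd : ((r : ℤ) ^ V - 1) ∣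
      G * (α * (r : ℤ) ^ x - α * (r : ℤ) ^ y + β * (r : ℤ) ^ z - β * (r : ℤ) ^ t)) :
    α * (r : ℤ) ^ x - α * (r : ℤ) ^ y + β * (r : ℤ) ^ z - β * (r : ℤ) ^ t = 0 := by
  set M := (r : ℤ) ^ (V - K) with hM
  have hM1 : 1 ≤ M := tt_pow_pos r _ hr
  have b : ∀ (γ : ℤ) (e : ℕ), |γ| ≤ A → e ≤ V - K → |γ * (r : ℤ) ^ e| ≤ A * M := by
    intro γ e hγ he
    have h1 := tt_pow_pos r e hr
    rw [abs_mul, abs_of_nonneg (show (0 : ℤ) ≤ (r : ℤ) ^ e by linarith)]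
    exact mul_le_mul hγ (tt_pow_mono r hr he) (by linarith) (by positivity)
  have b1 := b α x hαA hx
  have b2 := b α y hαA hy
  have b3 := b β z hβA hz
  have b4 := b β t hβA ht
  have hs : |α * (r : ℤ) ^ x - α * (r : ℤ) ^ y + β * (r : ℤ) ^ z - β * (r : ℤ) ^ t|
      ≤ 4 * (A * M) := by
    rw [abs_le] at b1 b2 b3 b4 ⊢
    constructor <;> linarith
  have hp : (r : ℤ) ^ V = (r : ℤ) ^ K * M := by
    rw [hM, ← pow_add]
    congr 1
    omega
  have hk := tt_two_pow_gt r K hr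
  have hK' : (4 : ℤ) * (C * A) + 2 ≤ K := by exact_mod_cast hK
  have hb : |G * (α * (r : ℤ) ^ x - α * (r : ℤ) ^ y + β * (r : ℤ) ^ z - β * (r : ℤ) ^ t)|
      < (r : ℤ) ^ V - 1 := by
    rw [abs_mul]
    have h1 := mul_le_mul hGC hs (abs_nonneg _) (by positivity)
    have h2 : (4 * ((C : ℤ) * A) + 2) * M ≤ (r : ℤ) ^ K * M :=
      mul_le_mul_of_nonneg_right (by linarith) (by linarith)
    rw [hp]
    have h3 : (C : ℤ) * (4 * (A * M)) = 4 * ((C : ℤ) * A) * M := by ring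
    rw [h3] at h1
    linarith
  rcases mul_eq_zero.1 (Int.eq_zero_of_abs_lt_dvd hd hb) with h | h
  · exact absurd h hG0
  · exact h

/-- the largest power dominates -/
lemma tt_no_dom {r A b x y z e : ℕ} {α α' β β' : ℤ} (hr : 2 ≤ r) (hβ0 : β ≠ 0) (hα : |α| ≤ A)
    (hα' : |α'| ≤ A) (hβ' : |β'| ≤ A) (hb : 6 * A + 2 ≤ b) (hx : x ≤ b / 2 + e)
    (hy : y ≤ b / 2 + e) (hz : z ≤ b / 2 + e)
    (h : β * (r : ℤ) ^ (b + e) = α * (r : ℤ) ^ x + α' * (r : ℤ) ^ y + β' * (r : ℤ) ^ z) :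
    False := by
  set M := (r : ℤ) ^ (b / 2 + e) with hM
  have hM1 : 1 ≤ M := tt_pow_pos r _ hr
  have bd : ∀ (γ : ℤ) (i : ℕ), |γ| ≤ A → i ≤ b / 2 + e → |γ * (r : ℤ) ^ i| ≤ A * M := by
    intro γ i hγ hi
    have h1 := tt_pow_pos r i hr
    rw [abs_mul, abs_of_nonneg (show (0 : ℤ) ≤ (r : ℤ) ^ i by linarith)]
    exact mul_le_mul hγ (tt_pow_mono r hr hi) (by linarith) (by positivity)
  have b1 := bd α x hα hx
  have b2 := bd α' y hα' hy
  have b3 := bd β' z hβ' hz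
  have h1 : |β * (r : ℤ) ^ (b + e)| ≤ 3 * (A * M) := by
    rw [h]
    rw [abs_le] at b1 b2 b3 ⊢
    constructor <;> linarith
  have hp : (r : ℤ) ^ (b + e) = (r : ℤ) ^ (b - b / 2) * M := by
    rw [hM, ← pow_add]
    congr 1
    omega
  have h2 := tt_two_pow_gt r (b - b / 2) hr
  have h3 : (3 : ℤ) * A + 1 ≤ ((b - b / 2 : ℕ) : ℤ) := by
    have : 3 * A + 1 ≤ b - b / 2 := by omega
    exact_mod_cast this
  have h4 : (1 : ℤ) ≤ |β| := Int.one_le_abs hβ0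
  have h5 := tt_pow_pos r (b + e) hr
  rw [abs_mul, abs_of_nonneg (show (0 : ℤ) ≤ (r : ℤ) ^ (b + e) by linarith)] at h1
  have h6 : 1 * (r : ℤ) ^ (b + e) ≤ |β| * (r : ℤ) ^ (b + e) :=
    mul_le_mul_of_nonneg_right h4 (by linarith)
  have h7 : (3 * (A : ℤ) + 1) * M ≤ (r : ℤ) ^ (b - b / 2) * M :=
    mul_le_mul_of_nonneg_right (by linarith) (by linarith)
  rw [← hp] at h7
  linarith

/-- Case II -/
lemma tt_case_two {r C A K : ℕ} {α β G : ℤ} {h0 u0 V h2 u2 : ℕ} (hr : 2 ≤ r) (hα0 : α ≠ 0)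
    (hβ0 : β ≠ 0) (hαA : |α| ≤ A) (hβA : |β| ≤ A) (hG0 : G ≠ 0) (hGC : |G| ≤ C) (hu0 : u0 < h0)
    (hu2 : u2 < h2)
    (hd : ((r : ℤ) ^ V - 1) ∣
      G * (α * ((r : ℤ) ^ h2 - (r : ℤ) ^ u2) + β * ((r : ℤ) ^ h0 - (r : ℤ) ^ u0)))
    (hK : 4 * (C * A) + 2 ≤ K) (hV : h0 + 2 * K ≤ V) (ha : 4 * u2 ≤ h0) (hc : 4 * u0 ≤ h0)
    (hb : 8 * A + 4 ≤ h0) :
    α * (r : ℤ) ^ u2 + β * (r : ℤ) ^ u0 = 0 ∧ ∃ m, h2 - u2 = m * V + (h0 - u0) := by
  have hw := tt_dvd_pow_mod r V h2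
  have hwV : h2 % V < V := Nat.mod_lt _ (by omega)
  set w := h2 % V with hwdef
  have hd1 : ((r : ℤ) ^ V - 1) ∣
      G * (α * (r : ℤ) ^ w - α * (r : ℤ) ^ u2 + β * (r : ℤ) ^ h0 - β * (r : ℤ) ^ u0) := by
    have e : G * (α * (r : ℤ) ^ w - α * (r : ℤ) ^ u2 + β * (r : ℤ) ^ h0 - β * (r : ℤ) ^ u0) =
        G * (α * ((r : ℤ) ^ h2 - (r : ℤ) ^ u2) + β * ((r : ℤ) ^ h0 - (r : ℤ) ^ u0))
          - G * α * ((r : ℤ) ^ h2 - (r : ℤ) ^ w) := by ring
    rw [e]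
    exact dvd_sub hd (Dvd.dvd.mul_left hw _)
  by_cases hcase : w ≤ V - K
  · have h4 := tt_four_zero hr hαA hβA hG0 hGC hK (by omega) hcase (by omega) (by omega) (by omega) hd1
    have hwb : h0 / 2 ≤ w := by
      by_contra hlt
      refine tt_no_dom (r := r) (A := A) (b := h0) (x := w) (y := u2) (z := u0) (e := 0)
        (α := -α) (α' := α) (β := β) (β' := β) hr hβ0 (by rwa [abs_neg]) hαA hβA (by omega)
        (by omega) (by omega) (by omega) ?_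
      rw [Nat.add_zero]
      linarith
    have hdv : (r : ℤ) ^ (h0 / 2) ∣ α * (r : ℤ) ^ u2 + β * (r : ℤ) ^ u0 := by
      have e : α * (r : ℤ) ^ u2 + β * (r : ℤ) ^ u0 = α * (r : ℤ) ^ w + β * (r : ℤ) ^ h0 := by
        linarith
      rw [e]
      exact dvd_add (Dvd.dvd.mul_left (pow_dvd_pow _ hwb) _)
        (Dvd.dvd.mul_left (pow_dvd_pow _ (by omega)) _)
    have hz : α * (r : ℤ) ^ u2 + β * (r : ℤ) ^ u0 = 0 := by
      refine Int.eq_zero_of_abs_lt_dvd hdv ?_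
      set M := (r : ℤ) ^ (h0 / 4) with hM
      have hM1 : 1 ≤ M := tt_pow_pos r _ hr
      have bd : ∀ (γ : ℤ) (i : ℕ), |γ| ≤ A → i ≤ h0 / 4 → |γ * (r : ℤ) ^ i| ≤ A * M := by
        intro γ i hγ hi
        have h1 := tt_pow_pos r i hr
        rw [abs_mul, abs_of_nonneg (show (0 : ℤ) ≤ (r : ℤ) ^ i by linarith)]
        exact mul_le_mul hγ (tt_pow_mono r hr hi) (by linarith) (by positivity)
      have b1 := bd α u2 hαA (by omega)
      have b2 := bd β u0 hβA (by omega)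
      have hp : (r : ℤ) ^ (h0 / 2) = (r : ℤ) ^ (h0 / 2 - h0 / 4) * M := by
        rw [hM, ← pow_add]
        congr 1
        omega
      have h2 := tt_two_pow_gt r (h0 / 2 - h0 / 4) hr
      have h3 : (2 : ℤ) * A ≤ ((h0 / 2 - h0 / 4 : ℕ) : ℤ) := by
        have : 2 * A ≤ h0 / 2 - h0 / 4 := by omega
        exact_mod_cast this
      have h7 : (2 * (A : ℤ) + 1) * M ≤ (r : ℤ) ^ (h0 / 2 - h0 / 4) * M :=
        mul_le_mul_of_nonneg_right (by linarith) (by linarith)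
      rw [hp]
      refine lt_of_le_of_lt (abs_add_le _ _) ?_
      linarith
    have hz2 : α * (r : ℤ) ^ w + β * (r : ℤ) ^ h0 = 0 := by linarith
    have hexp : w + u0 = u2 + h0 := by
      have h5 : α * ((r : ℤ) ^ (w + u0) - (r : ℤ) ^ (u2 + h0)) = 0 := by
        rw [pow_add, pow_add]
        linear_combination (r : ℤ) ^ u0 * hz2 - (r : ℤ) ^ h0 * hz
      have h6 : (r : ℤ) ^ (w + u0) = (r : ℤ) ^ (u2 + h0) := by
        rcases mul_eq_zero.1 h5 with h | h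
        · exact absurd h hα0
        · linarith
      have h7 : r ^ (w + u0) = r ^ (u2 + h0) := by exact_mod_cast h6
      exact Nat.pow_right_injective hr h7
    refine ⟨hz, h2 / V, ?_⟩
    have h8 : h2 / V * V + w = h2 := by
      rw [hwdef]
      exact Nat.div_add_mod' h2 V
    omega
  · exfalso
    have hd2 : ((r : ℤ) ^ V - 1) ∣
        G * (α * (r : ℤ) ^ (w + K - V) - α * (r : ℤ) ^ (u2 + K) + β * (r : ℤ) ^ (h0 + K)
          - β * (r : ℤ) ^ (u0 + K)) := by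
      have e0 : (r : ℤ) ^ (w + K) = (r : ℤ) ^ V * (r : ℤ) ^ (w + K - V) := by
        rw [← pow_add]
        congr 1
        omega
      have e : G * (α * (r : ℤ) ^ (w + K - V) - α * (r : ℤ) ^ (u2 + K) + β * (r : ℤ) ^ (h0 + K)
          - β * (r : ℤ) ^ (u0 + K)) =
          (r : ℤ) ^ K * (G * (α * (r : ℤ) ^ w - α * (r : ℤ) ^ u2 + β * (r : ℤ) ^ h0
            - β * (r : ℤ) ^ u0)) - ((r : ℤ) ^ V - 1) * (G * α * (r : ℤ) ^ (w + K - V)) := by
        rw [pow_add (r : ℤ) w K] at e0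
        rw [pow_add, pow_add, pow_add]
        linear_combination (-G * α) * e0
      rw [e]
      exact dvd_sub (Dvd.dvd.mul_left hd1 _) (Dvd.intro _ rfl)
    have h4 := tt_four_zero hr hαA hβA hG0 hGC hK (by omega) (by omega) (by omega) (by omega)
      (by omega) hd2
    refine tt_no_dom (r := r) (A := A) (b := h0) (x := w + K - V) (y := u2 + K) (z := u0 + K) (e := K)
      (α := -α) (α' := α) (β := β) (β' := β) hr hβ0 (by rwa [abs_neg]) hαA hβA (by omega)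
      (by omega) (by omega) (by omega) ?_
    linarith


/-! ### the chain -/

/-- the determinants -/
def ttD (P : ℕ → ℤ) (d : ℕ → ℕ) (k : ℕ) : ℤ := P (k + 1) * d k - P k * d (k + 1)

section chain

variable {r C μ : ℕ} {P : ℕ → ℤ} {d g u h : ℕ → ℕ}

lemma Rep.tt_eqZ (hR : Rep r C d g u h) (k : ℕ) :
    (g k : ℤ) * d k = (r : ℤ) ^ h k - (r : ℤ) ^ u k := by
  have := hR.eq k
  have h2 : ((g k * d k + r ^ u k : ℕ) : ℤ) = ((r ^ h k : ℕ) : ℤ) := by rw [this]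
  push_cast at h2
  linarith

lemma Rep.tt_rel (hR : Rep r C d g u h) (P : ℕ → ℤ) (k : ℕ) :
    ((r : ℤ) ^ h (k + 1) - (r : ℤ) ^ u (k + 1)) ∣
      (g (k + 1) : ℤ) * ((ttD P d k * g k) * ((r : ℤ) ^ h (k + 2) - (r : ℤ) ^ u (k + 2))
        + (ttD P d (k + 1) * g (k + 2)) * ((r : ℤ) ^ h k - (r : ℤ) ^ u k)) := by
  rw [← hR.tt_eqZ, ← hR.tt_eqZ, ← hR.tt_eqZ]
  refine ⟨g k * g (k + 2) * (P (k + 2) * d k - P k * d (k + 2)), ?_⟩
  simp only [ttD]
  ring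

lemma Rep.tt_pow_le (hr : 2 ≤ r) (hR : Rep r C d g u h) (k : ℕ) : r ^ h k ≤ r * (g k * d k) := by
  have h1 := hR.eq k
  have h2 : r * r ^ u k ≤ r ^ h k := by
    rw [← pow_succ']
    exact Nat.pow_le_pow_right (by omega) (hR.uh k)
  have h3 : 2 * r ^ h k ≤ r * r ^ h k := Nat.mul_le_mul_right _ hr
  have h4 : r * (g k * d k) + r * r ^ u k = r * r ^ h k := by rw [← h1]; ring
  omega

lemma Rep.tt_d_le (hR : Rep r C d g u h) (k : ℕ) : d k ≤ r ^ h k := by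
  have h1 := hR.eq k
  have h2 : 1 * d k ≤ g k * d k := Nat.mul_le_mul_right _ (hR.g1 k)
  omega

lemma Chn.tt_lt_d (hc : Chn C μ P d) (k : ℕ) : k < d k := by
  induction k with
  | zero => exact hc.pos 0
  | succ k ih => have := hc.lt k; omega

lemma Chn.tt_mono (hc : Chn C μ P d) : Monotone d := (strictMono_nat_of_lt_succ hc.lt).monotone

lemma tt_h_inf (hr : 2 ≤ r) (hc : Chn C μ P d) (hR : Rep r C d g u h) (B : ℕ) :
    ∃ k₀, ∀ k, k₀ ≤ k → B ≤ h k := by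
  refine ⟨r ^ B, fun k hk => ?_⟩
  have h1 := hR.tt_d_le k
  have h2 := hc.tt_lt_d k
  have h3 : r ^ B < r ^ h k := by omega
  exact ((Nat.pow_lt_pow_iff_right (by omega)).1 h3).le

lemma tt_h_mono (hr : 2 ≤ r) (hc : Chn C μ P d) (hR : Rep r C d g u h) {j k : ℕ} (hkj : k ≤ j) :
    h k ≤ h j + 1 + C := by
  have h1 := hR.tt_pow_le hr k
  have h2 := hR.tt_d_le j
  have h3 := hc.tt_mono hkj
  have h4 : C ≤ r ^ C := (Nat.lt_pow_self (by omega)).le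
  have h5 : r ^ h k ≤ r ^ (h j + 1 + C) := by
    calc r ^ h k ≤ r * (g k * d k) := h1
      _ ≤ r * (r ^ C * r ^ h j) :=
          Nat.mul_le_mul_left _ (Nat.mul_le_mul ((hR.gC k).trans h4) (h3.trans h2))
      _ = r ^ (h j + 1 + C) := by ring
  exact (Nat.pow_le_pow_iff_right (by omega)).1 h5

lemma tt_h_grow (hr : 2 ≤ r) (hc : Chn C μ P d) (hR : Rep r C d g u h) (k : ℕ) :
    h (k + 1) ≤ (2 * C + μ + 1) * h k := by
  have h1 := hR.tt_pow_le hr (k + 1)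
  have h2 := hR.tt_d_le k
  have h3 := hc.growth k
  have h4 : C ≤ r ^ C := (Nat.lt_pow_self (by omega)).le
  have h5 : r ^ h (k + 1) ≤ r ^ (1 + C + C + h k * μ) := by
    calc r ^ h (k + 1) ≤ r * (g (k + 1) * d (k + 1)) := h1
      _ ≤ r * (r ^ C * (r ^ C * (r ^ h k) ^ μ)) :=
          Nat.mul_le_mul_left _ (Nat.mul_le_mul ((hR.gC _).trans h4)
            (h3.trans (Nat.mul_le_mul h4 (Nat.pow_le_pow_left h2 _))))
      _ = r ^ (1 + C + C + h k * μ) := by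
          rw [pow_add, pow_add, pow_add, pow_mul]
          ring
  have h6 := (Nat.pow_le_pow_iff_right (by omega)).1 h5
  have h7 : 1 ≤ h k := by have := hR.uh k; omega
  nlinarith

lemma tt_Dt_ne (hc : Chn C μ P d) (k : ℕ) : ttD P d k ≠ 0 := hc.det_ne k

lemma tt_Dt_le (hc : Chn C μ P d) (k : ℕ) : |ttD P d k| ≤ C := hc.det_le k

lemma tt_dvd_E (hR : Rep r C d g u h) (k : ℕ) : (r : ℤ) ^ u k ∣ (g k : ℤ) * d k := by
  rw [hR.tt_eqZ]
  exact dvd_sub (pow_dvd_pow _ (hR.uh k).le) dvd_rfl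

lemma tt_u_min (hr : 2 ≤ r) (hc : Chn C μ P d) (hR : Rep r C d g u h) (k : ℕ) :
    min (u k) (u (k + 1)) ≤ C ^ 3 := by
  set n := min (u k) (u (k + 1)) with hn
  have h1 : (r : ℤ) ^ n ∣ ttD P d k * g k * g (k + 1) := by
    have e : ttD P d k * g k * g (k + 1) =
        P (k + 1) * g (k + 1) * (g k * d k) - P k * g k * (g (k + 1) * d (k + 1)) := by
      simp only [ttD]
      ring
    rw [e]
    exact dvd_sub
      (Dvd.dvd.mul_left ((pow_dvd_pow _ (min_le_left _ _)).trans (tt_dvd_E hR k)) _)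
      (Dvd.dvd.mul_left ((pow_dvd_pow _ (min_le_right _ _)).trans (tt_dvd_E hR (k + 1))) _)
  have g0 : (1 : ℤ) ≤ g k := by exact_mod_cast hR.g1 k
  have g1 : (1 : ℤ) ≤ g (k + 1) := by exact_mod_cast hR.g1 (k + 1)
  have g0' : (g k : ℤ) ≤ C := by exact_mod_cast hR.gC k
  have g1' : (g (k + 1) : ℤ) ≤ C := by exact_mod_cast hR.gC (k + 1)
  have h2 : |ttD P d k * g k * g (k + 1)| ≤ (C : ℤ) ^ 3 := by
    rw [abs_mul, abs_mul, abs_of_nonneg (show (0 : ℤ) ≤ g k by linarith),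
      abs_of_nonneg (show (0 : ℤ) ≤ g (k + 1) by linarith)]
    calc |ttD P d k| * g k * g (k + 1) ≤ C * C * C :=
          mul_le_mul (mul_le_mul (tt_Dt_le hc k) g0' (by linarith) (by positivity)) g1'
            (by linarith) (by positivity)
      _ = (C : ℤ) ^ 3 := by ring
  have h3 : ttD P d k * g k * g (k + 1) ≠ 0 :=
    mul_ne_zero (mul_ne_zero (tt_Dt_ne hc k) (by linarith)) (by linarith)
  have h4 : (r : ℤ) ^ n ≤ |ttD P d k * g k * g (k + 1)| :=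
    Int.le_of_dvd (abs_pos.2 h3) ((dvd_abs _ _).2 h1)
  have h5 := tt_two_pow_gt r n hr
  have h6 : (n : ℤ) ≤ ((C ^ 3 : ℕ) : ℤ) := by
    push_cast
    linarith
  exact_mod_cast h6

/-- Case I for large `k` -/
lemma tt_ev_one (hr : 2 ≤ r) (hc : Chn C μ P d) (hR : Rep r C d g u h) (hs : Small u h) :
    ∃ k₀, ∀ k, k₀ ≤ k → 3 * C ^ 3 + 1 ≤ u (k + 1) →
      (ttD P d k * g k) * (r : ℤ) ^ u (k + 2) + (ttD P d (k + 1) * g (k + 2)) * (r : ℤ) ^ u k = 0 ∧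
      ∃ m, 1 ≤ m ∧ h (k + 2) - u (k + 2) = m * (h (k + 1) - u (k + 1)) + (h k - u k) := by
  obtain ⟨k1, hk1⟩ := hs (4 * (2 * C + μ + 1))
  obtain ⟨k2, hk2⟩ := tt_h_inf hr hc hR
    (2 * (2 * (C * (C * C)) + 2) + 2 * (1 + C) + 2 * (1 + C + C ^ 3 + 1)
      + (C ^ 3 + C ^ 2 * (C * (C * r ^ C ^ 3 + 1)) + 1))
  refine ⟨k1 + k2, fun k hk hu => ?_⟩
  have s1 := hk1 (k + 1) (by omega)
  have gr := tt_h_grow hr hc hR k
  have i0 := hk2 k (by omega)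
  have i1 := hk2 (k + 1) (by omega)
  have m0 := tt_u_min hr hc hR k
  have m1 := tt_u_min hr hc hR (k + 1)
  have uk : u k ≤ C ^ 3 := by
    rcases min_le_iff.1 m0 with h | h <;> omega
  have uk2 : u (k + 2) ≤ C ^ 3 := by
    rcases min_le_iff.1 m1 with h | h
    · omega
    · exact h
  have h4u : 4 * u (k + 1) ≤ h k := by
    have : (2 * C + μ + 1) * (4 * u (k + 1)) ≤ (2 * C + μ + 1) * h k := by
      calc (2 * C + μ + 1) * (4 * u (k + 1)) = 4 * (2 * C + μ + 1) * u (k + 1) := by ring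
        _ ≤ _ := s1.trans gr
    exact Nat.le_of_mul_le_mul_left this (by omega)
  have h4u1 : 4 * u (k + 1) ≤ h (k + 1) := by
    refine le_trans ?_ s1
    have : 4 * u (k + 1) * 1 ≤ 4 * u (k + 1) * (2 * C + μ + 1) := Nat.mul_le_mul_left _ (by omega)
    calc 4 * u (k + 1) = 4 * u (k + 1) * 1 := by ring
      _ ≤ 4 * u (k + 1) * (2 * C + μ + 1) := this
      _ = _ := by ring
  have hm1 := tt_h_mono hr hc hR (show k + 1 ≤ k + 2 by omega)
  have hm0 := tt_h_mono hr hc hR (show k ≤ k + 2 by omega)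
  have g0 : (1 : ℤ) ≤ g k := by exact_mod_cast hR.g1 k
  have g1 : (1 : ℤ) ≤ g (k + 1) := by exact_mod_cast hR.g1 (k + 1)
  have g2 : (1 : ℤ) ≤ g (k + 2) := by exact_mod_cast hR.g1 (k + 2)
  have g0' : (g k : ℤ) ≤ C := by exact_mod_cast hR.gC k
  have g1' : (g (k + 1) : ℤ) ≤ C := by exact_mod_cast hR.gC (k + 1)
  have g2' : (g (k + 2) : ℤ) ≤ C := by exact_mod_cast hR.gC (k + 2)
  have v1 : 2 * (C * (C * C)) + 2 ≤ h (k + 1) - u (k + 1) := by omega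
  have key := tt_case_one (r := r) (C := C) (A := C * C) (α := ttD P d k * g k)
    (β := ttD P d (k + 1) * g (k + 2)) (G := g (k + 1)) hr
    (mul_ne_zero (tt_Dt_ne hc k) (by linarith))
    (by
      rw [abs_mul, abs_of_nonneg (show (0 : ℤ) ≤ g k by linarith)]
      push_cast
      exact mul_le_mul (tt_Dt_le hc k) g0' (by linarith) (by positivity))
    (by
      rw [abs_mul, abs_of_nonneg (show (0 : ℤ) ≤ g (k + 2) by linarith)]
      push_cast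
      exact mul_le_mul (tt_Dt_le hc (k + 1)) g2' (by linarith) (by positivity))
    (by linarith) (by rwa [abs_of_nonneg (show (0 : ℤ) ≤ g (k + 1) by linarith)])
    (hR.uh k) (hR.uh (k + 1)) (hR.uh (k + 2)) (hR.tt_rel P k) (by omega) (by omega)
    (by
      have p1 := tt_pow_mono r hr uk
      have p2 := tt_pow_mono r hr uk2
      have p3 := tt_pow_mono r hr hu
      have p4 := tt_two_pow_gt r (2 * C ^ 3 + 1) hr
      have p5 := tt_pow_pos r (C ^ 3) hr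
      have p6 : (r : ℤ) ^ (3 * C ^ 3 + 1) = (r : ℤ) ^ (2 * C ^ 3 + 1) * (r : ℤ) ^ C ^ 3 := by
        rw [← pow_add]
        congr 1
        ring
      have p7 : (C : ℤ) * (((C * C : ℕ) : ℤ) * ((r : ℤ) ^ u (k + 2) + (r : ℤ) ^ u k))
          ≤ (C : ℤ) * (((C * C : ℕ) : ℤ) * (2 * (r : ℤ) ^ C ^ 3)) := by
        refine mul_le_mul_of_nonneg_left (mul_le_mul_of_nonneg_left (by linarith) ?_) ?_ <;>
          positivity
      refine lt_of_le_of_lt p7 (lt_of_lt_of_le ?_ p3)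
      rw [p6]
      push_cast at p4 ⊢
      have p8 : (2 * (C : ℤ) ^ 3 + 1 + 1) * (r : ℤ) ^ C ^ 3
          ≤ (r : ℤ) ^ (2 * C ^ 3 + 1) * (r : ℤ) ^ C ^ 3 :=
        mul_le_mul_of_nonneg_right p4 (by linarith)
      refine lt_of_lt_of_le ?_ p8
      nlinarith)
    v1
  refine ⟨key.1, ?_⟩
  have hmod := key.2
  set V := h (k + 1) - u (k + 1) with hV
  have a0 := hR.uh k
  have a2 := hR.uh (k + 2)
  rcases Nat.lt_trichotomy (h (k + 2) - u (k + 2)) (h k - u k) with hlt | heq | hgt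
  · exfalso
    have h1 : V ∣ (h k - u k) - (h (k + 2) - u (k + 2)) :=
      (Nat.modEq_iff_dvd' hlt.le).1 hmod
    have h2 := Nat.le_of_dvd (by omega) h1
    omega
  · exfalso
    set v := h k - u k with hv
    have e0 : (g k : ℤ) * d k = (r : ℤ) ^ u k * ((r : ℤ) ^ v - 1) := by
      rw [hR.tt_eqZ, mul_sub, ← pow_add, mul_one, hv]
      congr 2
      omega
    have e2 : (g (k + 2) : ℤ) * d (k + 2) = (r : ℤ) ^ u (k + 2) * ((r : ℤ) ^ v - 1) := by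
      rw [hR.tt_eqZ, mul_sub, ← pow_add, mul_one, ← heq]
      congr 2
      omega
    set T : ℤ := P (k + 2) * d k - P k * d (k + 2) with hT
    have hT0 : T ≠ 0 := by
      intro h0
      have h1 : (d (k + 2) : ℤ) ∣ P (k + 2) * d k := ⟨P k, by linarith⟩
      have h2 := (hc.cop (k + 2)).symm.dvd_of_dvd_mul_left h1
      have h3 : d (k + 2) ∣ d k := by exact_mod_cast h2
      have h4 := Nat.le_of_dvd (hc.pos k) h3
      have h5 := hc.lt k
      have h6 : d (k + 1) < d (k + 2) := hc.lt (k + 1)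
      omega
    have hdv : ((r : ℤ) ^ v - 1) ∣ g k * g (k + 2) * T := by
      have e : (g k : ℤ) * g (k + 2) * T =
          ((r : ℤ) ^ v - 1) * (P (k + 2) * g (k + 2) * (r : ℤ) ^ u k
            - P k * g k * (r : ℤ) ^ u (k + 2)) := by
        rw [hT]
        linear_combination P (k + 2) * g (k + 2) * e0 - P k * g k * e2
      exact ⟨_, e⟩
    have d0 : (1 : ℤ) ≤ d k := by exact_mod_cast hc.pos k
    have d01 : (d k : ℤ) ≤ d (k + 1) := by exact_mod_cast (hc.lt k).le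
    have d2 : (0 : ℤ) ≤ d (k + 2) := by positivity
    have hrv : (1 : ℤ) ≤ (r : ℤ) ^ v := tt_pow_pos r v hr
    have q0 := tt_pow_pos r (u k) hr
    have q2 := tt_pow_pos r (u (k + 2)) hr
    have q3 : (r : ℤ) ^ u (k + 2) ≤ (r : ℤ) ^ C ^ 3 := tt_pow_mono r hr uk2
    have hd2 : (d (k + 2) : ℤ) ≤ C * (r : ℤ) ^ C ^ 3 * d k := by
      calc (d (k + 2) : ℤ) = 1 * d (k + 2) := by ring
        _ ≤ g (k + 2) * d (k + 2) := mul_le_mul_of_nonneg_right g2 d2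
        _ = (r : ℤ) ^ u (k + 2) * ((r : ℤ) ^ v - 1) := e2
        _ ≤ (r : ℤ) ^ C ^ 3 * ((r : ℤ) ^ v - 1) := mul_le_mul_of_nonneg_right q3 (by linarith)
        _ ≤ (r : ℤ) ^ C ^ 3 * ((r : ℤ) ^ u k * ((r : ℤ) ^ v - 1)) := by
            refine mul_le_mul_of_nonneg_left ?_ (by positivity)
            have : 1 * ((r : ℤ) ^ v - 1) ≤ (r : ℤ) ^ u k * ((r : ℤ) ^ v - 1) :=
              mul_le_mul_of_nonneg_right q0 (by linarith)
            linarith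
        _ = (r : ℤ) ^ C ^ 3 * (g k * d k) := by rw [e0]
        _ ≤ (r : ℤ) ^ C ^ 3 * (C * d k) :=
            mul_le_mul_of_nonneg_left (mul_le_mul_of_nonneg_right g0' (by linarith))
              (by positivity)
        _ = _ := by ring
    have hTle : |T| ≤ C * (C * (r : ℤ) ^ C ^ 3 + 1) := by
      have e : (d (k + 1) : ℤ) * T = ttD P d k * d (k + 2) + ttD P d (k + 1) * d k := by
        rw [hT]
        simp only [ttD]
        ring
      have h1 : (d (k + 1) : ℤ) * |T| ≤ C * d (k + 2) + C * d k := by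
        have : |(d (k + 1) : ℤ) * T| ≤ C * d (k + 2) + C * d k := by
          rw [e]
          refine (abs_add_le _ _).trans ?_
          rw [abs_mul, abs_mul, Nat.abs_cast, Nat.abs_cast]
          exact add_le_add (mul_le_mul_of_nonneg_right (tt_Dt_le hc k) d2)
            (mul_le_mul_of_nonneg_right (tt_Dt_le hc (k + 1)) (by linarith))
        rwa [abs_mul, Nat.abs_cast] at this
      have h2 : (d (k + 1) : ℤ) * |T| ≤ d (k + 1) * (C * (C * (r : ℤ) ^ C ^ 3 + 1)) := by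
        have h3 : (C : ℤ) * d (k + 2) ≤ C * (C * (r : ℤ) ^ C ^ 3 * d k) :=
          mul_le_mul_of_nonneg_left hd2 (by positivity)
        have h4 : (d k : ℤ) * (C * (C * (r : ℤ) ^ C ^ 3 + 1))
            ≤ d (k + 1) * (C * (C * (r : ℤ) ^ C ^ 3 + 1)) :=
          mul_le_mul_of_nonneg_right d01 (by positivity)
        linarith
      exact le_of_mul_le_mul_left h2 (by linarith)
    have hfin : |(g k : ℤ) * g (k + 2) * T| < (r : ℤ) ^ v - 1 := by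
      rw [abs_mul, abs_mul, Nat.abs_cast, Nat.abs_cast]
      have h1 : (g k : ℤ) * g (k + 2) * |T| ≤ C * C * (C * (C * (r : ℤ) ^ C ^ 3 + 1)) :=
        mul_le_mul (mul_le_mul g0' g2' (by linarith) (by positivity)) hTle (abs_nonneg _)
          (by positivity)
      have h2 := tt_two_pow_gt r v hr
      have h3 : C ^ 2 * (C * (C * r ^ C ^ 3 + 1)) + 1 ≤ v := by omega
      have h4 : (C : ℤ) ^ 2 * (C * (C * (r : ℤ) ^ C ^ 3 + 1)) + 1 ≤ v := by exact_mod_cast h3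
      have h5 : (C : ℤ) * C * (C * (C * (r : ℤ) ^ C ^ 3 + 1))
        = (C : ℤ) ^ 2 * (C * (C * (r : ℤ) ^ C ^ 3 + 1)) := by ring
      linarith
    have hz := Int.eq_zero_of_abs_lt_dvd hdv hfin
    rcases mul_eq_zero.1 hz with h1 | h1
    · rcases mul_eq_zero.1 h1 with h2 | h2 <;> linarith
    · exact hT0 h1
  · have h1 : V ∣ (h (k + 2) - u (k + 2)) - (h k - u k) :=
      (Nat.modEq_iff_dvd' hgt.le).1 hmod.symm
    obtain ⟨m, hm⟩ := h1
    refine ⟨m, ?_, ?_⟩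
    · rcases Nat.eq_zero_or_pos m with h0 | h0
      · rw [h0, mul_zero] at hm
        omega
      · exact h0
    · rw [mul_comm m V, ← hm]
      omega



/-- Case II for large `k` -/
lemma tt_ev_two (hr : 2 ≤ r) (hc : Chn C μ P d) (hR : Rep r C d g u h) (hs : Small u h)
    (hg : Gap u h) :
    ∃ k₀, ∀ k, k₀ ≤ k → u (k + 1) ≤ 3 * C ^ 3 →
      (ttD P d k * g k) * (r : ℤ) ^ u (k + 2) + (ttD P d (k + 1) * g (k + 2)) * (r : ℤ) ^ u k = 0 ∧
      ∃ m, h (k + 2) - u (k + 2) = m * (h (k + 1) - u (k + 1)) + (h k - u k) := by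
  obtain ⟨k1, hk1⟩ := hs (4 * (2 * C + μ + 1) ^ 2)
  set K : ℕ := 4 * (C * (C * C)) + 2 with hK
  set K3 : ℕ := 2 * K + 3 * C ^ 3 with hK3
  obtain ⟨k2, hk2⟩ := tt_h_inf hr hc hR (2 * K3 + 8 * (C * C) + 4)
  obtain ⟨k3, hk3⟩ := tt_ev_one hr hc hR hs
  obtain ⟨k4, hk4⟩ := hg K3
  refine ⟨k1 + k2 + k3 + k4 + 1, fun k hk hu => ?_⟩
  have cpos : 1 ≤ 2 * C + μ + 1 := by omega
  have small : ∀ j, k1 ≤ j → 4 * u j ≤ h j := by
    intro j hj
    refine le_trans ?_ (hk1 j hj)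
    have h1 : 1 ≤ (2 * C + μ + 1) ^ 2 := Nat.one_le_pow _ _ (by omega)
    have : 4 * u j * 1 ≤ 4 * u j * (2 * C + μ + 1) ^ 2 := Nat.mul_le_mul_left _ h1
    calc 4 * u j = 4 * u j * 1 := by ring
      _ ≤ _ := this
      _ = _ := by ring
  have small1 : ∀ j, k1 ≤ j → 4 * u (j + 1) ≤ h j := by
    intro j hj
    have h1 := hk1 (j + 1) (by omega)
    have h2 := tt_h_grow hr hc hR j
    have h3 : (2 * C + μ + 1) * (4 * u (j + 1)) ≤ (2 * C + μ + 1) * h j := by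
      refine le_trans ?_ h2
      refine le_trans ?_ h1
      have : (2 * C + μ + 1) * (4 * u (j + 1)) * 1
          ≤ (2 * C + μ + 1) * (4 * u (j + 1)) * (2 * C + μ + 1) := Nat.mul_le_mul_left _ cpos
      calc (2 * C + μ + 1) * (4 * u (j + 1)) = (2 * C + μ + 1) * (4 * u (j + 1)) * 1 := by ring
        _ ≤ _ := this
        _ = _ := by ring
    exact Nat.le_of_mul_le_mul_left h3 (by omega)
  have small2 : ∀ j, k1 ≤ j → 4 * u (j + 2) ≤ h j := by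
    intro j hj
    have h1 := hk1 (j + 2) (by omega)
    have h2 := tt_h_grow hr hc hR j
    have h2' := tt_h_grow hr hc hR (j + 1)
    have h3 : (2 * C + μ + 1) ^ 2 * (4 * u (j + 2)) ≤ (2 * C + μ + 1) ^ 2 * h j := by
      calc (2 * C + μ + 1) ^ 2 * (4 * u (j + 2)) = 4 * (2 * C + μ + 1) ^ 2 * u (j + 2) := by ring
        _ ≤ h (j + 2) := h1
        _ ≤ (2 * C + μ + 1) * h (j + 1) := h2'
        _ ≤ (2 * C + μ + 1) * ((2 * C + μ + 1) * h j) := Nat.mul_le_mul_left _ h2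
        _ = _ := by ring
    exact Nat.le_of_mul_le_mul_left h3 (by positivity)
  have i0 := hk2 k (by omega)
  have hgap : h k + K3 ≤ h (k + 1) := by
    by_cases hcase : u k ≤ K3
    · exact (hk4 k (by omega) hcase (by omega)).le
    · obtain ⟨j, rfl⟩ : ∃ j, k = j + 1 := ⟨k - 1, by omega⟩
      obtain ⟨-, m, hm1, hm⟩ := hk3 j (by omega) (by omega)
      have a1 := small1 j (by omega)
      have a0 := small j (by omega)
      have ij := hk2 j (by omega)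
      have b1 := hR.uh (j + 1)
      have b2 := hR.uh (j + 2)
      have b0 := hR.uh j
      have h5 : 1 * (h (j + 1) - u (j + 1)) ≤ m * (h (j + 1) - u (j + 1)) :=
        Nat.mul_le_mul_right _ hm1
      have e : h (j + 1 + 1) = h (j + 2) := rfl
      omega
  have a2 := small2 k (by omega)
  have a0 := small k (by omega)
  have g0 : (1 : ℤ) ≤ g k := by exact_mod_cast hR.g1 k
  have g1 : (1 : ℤ) ≤ g (k + 1) := by exact_mod_cast hR.g1 (k + 1)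
  have g2 : (1 : ℤ) ≤ g (k + 2) := by exact_mod_cast hR.g1 (k + 2)
  have g0' : (g k : ℤ) ≤ C := by exact_mod_cast hR.gC k
  have g1' : (g (k + 1) : ℤ) ≤ C := by exact_mod_cast hR.gC (k + 1)
  have g2' : (g (k + 2) : ℤ) ≤ C := by exact_mod_cast hR.gC (k + 2)
  refine tt_case_two (r := r) (C := C) (A := C * C) (K := K) (α := ttD P d k * g k)
    (β := ttD P d (k + 1) * g (k + 2)) (G := g (k + 1)) hr
    (mul_ne_zero (tt_Dt_ne hc k) (by linarith)) (mul_ne_zero (tt_Dt_ne hc (k + 1)) (by linarith)) ?_ ?_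
    (by linarith) (by rwa [abs_of_nonneg (show (0 : ℤ) ≤ g (k + 1) by linarith)])
    (hR.uh k) (hR.uh (k + 2)) ?_ le_rfl (by omega) a2 a0 (by omega)
  · rw [abs_mul, abs_of_nonneg (show (0 : ℤ) ≤ g k by linarith)]
    push_cast
    exact mul_le_mul (tt_Dt_le hc k) g0' (by linarith) (by positivity)
  · rw [abs_mul, abs_of_nonneg (show (0 : ℤ) ≤ g (k + 2) by linarith)]
    push_cast
    exact mul_le_mul (tt_Dt_le hc (k + 1)) g2' (by linarith) (by positivity)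
  · refine dvd_trans ?_ (hR.tt_rel P k)
    refine ⟨(r : ℤ) ^ u (k + 1), ?_⟩
    have b1 := hR.uh (k + 1)
    rw [sub_mul, ← pow_add, one_mul]
    congr 2
    omega

/-- Block TT -/
theorem three_term (hr : 2 ≤ r) (hc : Chn C μ P d)
    (hR : Rep r C d g u h) (hs : Small u h) (hg : Gap u h) :
    (∃ K, ∀ k, u k ≤ K) ∧ ∃ k₀, ∀ k, k₀ ≤ k → TT r P d g u h k := by
  obtain ⟨k1, hk1⟩ := tt_ev_one hr hc hR hs
  obtain ⟨k2, hk2⟩ := tt_ev_two hr hc hR hs hg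
  have ev : ∀ k, k1 + k2 ≤ k →
      (ttD P d k * g k) * (r : ℤ) ^ u (k + 2) + (ttD P d (k + 1) * g (k + 2)) * (r : ℤ) ^ u k = 0 ∧
      ∃ m, h (k + 2) - u (k + 2) = m * (h (k + 1) - u (k + 1)) + (h k - u k) := by
    intro k hk
    by_cases hcase : u (k + 1) ≤ 3 * C ^ 3
    · exact hk2 k (by omega) hcase
    · obtain ⟨h1, m, -, h2⟩ := hk1 k (by omega) (by omega)
      exact ⟨h1, m, h2⟩
  set n₀ := k1 + k2 with hn₀
  -- the conserved quantity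
  set Q : ℕ → ℤ := fun k => |ttD P d k| * g k * g (k + 1) with hQ
  have gp : ∀ k, (1 : ℤ) ≤ g k := fun k => by exact_mod_cast hR.g1 k
  have gC : ∀ k, (g k : ℤ) ≤ C := fun k => by exact_mod_cast hR.gC k
  have Q1 : ∀ k, 1 ≤ Q k := by
    intro k
    have h1 : (1 : ℤ) ≤ |ttD P d k| := Int.one_le_abs (tt_Dt_ne hc k)
    have h2 : (1 : ℤ) * 1 * 1 ≤ |ttD P d k| * g k * g (k + 1) :=
      mul_le_mul (mul_le_mul h1 (gp k) (by norm_num) (by positivity)) (gp (k + 1)) (by norm_num)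
        (by positivity)
    simpa using h2
  have QC : ∀ k, Q k ≤ (C : ℤ) ^ 3 := by
    intro k
    calc |ttD P d k| * g k * g (k + 1) ≤ C * C * C :=
          mul_le_mul (mul_le_mul (tt_Dt_le hc k) (gC k) (by positivity) (by positivity)) (gC (k + 1))
            (by positivity) (by positivity)
      _ = (C : ℤ) ^ 3 := by ring
  have step : ∀ k, n₀ ≤ k → Q k * (r : ℤ) ^ (u (k + 1) + u (k + 2))
      = Q (k + 1) * (r : ℤ) ^ (u k + u (k + 1)) := by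
    intro k hk
    have h1 := (ev k hk).1
    have h2 : |(ttD P d k * g k) * (r : ℤ) ^ u (k + 2)|
        = |(ttD P d (k + 1) * g (k + 2)) * (r : ℤ) ^ u k| := by
      rw [eq_neg_of_add_eq_zero_left h1, abs_neg]
    have q0 : (0 : ℤ) ≤ (r : ℤ) ^ u k := by positivity
    have q2 : (0 : ℤ) ≤ (r : ℤ) ^ u (k + 2) := by positivity
    rw [abs_mul, abs_mul, abs_mul, abs_mul, Nat.abs_cast, Nat.abs_cast, abs_of_nonneg q0,
      abs_of_nonneg q2] at h2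
    simp only [hQ]
    rw [pow_add, pow_add]
    have e : g (k + 1 + 1) = g (k + 2) := rfl
    rw [e]
    linear_combination (g (k + 1) : ℤ) * (r : ℤ) ^ u (k + 1) * h2
  have inv : ∀ n, Q n₀ * (r : ℤ) ^ (u (n₀ + n) + u (n₀ + n + 1))
      = Q (n₀ + n) * (r : ℤ) ^ (u n₀ + u (n₀ + 1)) := by
    intro n
    induction n with
    | zero => rfl
    | succ n ih =>
      have h1 := step (n₀ + n) (by omega)
      have hp : (r : ℤ) ^ (u (n₀ + n) + u (n₀ + n + 1)) ≠ 0 := by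
        have := tt_pow_pos r (u (n₀ + n) + u (n₀ + n + 1)) hr
        linarith
      have e1 : n₀ + (n + 1) = n₀ + n + 1 := by omega
      rw [e1]
      have e2 : u (n₀ + n + 1 + 1) = u (n₀ + n + 2) := rfl
      rw [e2]
      refine mul_right_cancel₀ hp ?_
      linear_combination (r : ℤ) ^ (u (n₀ + n + 1) + u (n₀ + n + 2)) * ih
        + (r : ℤ) ^ (u n₀ + u (n₀ + 1)) * h1
  have ubound : ∀ k, n₀ ≤ k → u k ≤ C ^ 3 * r ^ (u n₀ + u (n₀ + 1)) := by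
    intro k hk
    obtain ⟨n, rfl⟩ : ∃ n, k = n₀ + n := ⟨k - n₀, by omega⟩
    have h1 := inv n
    have h2 := tt_pow_pos r (u (n₀ + n) + u (n₀ + n + 1)) hr
    have h3 : 1 * (r : ℤ) ^ (u (n₀ + n) + u (n₀ + n + 1))
        ≤ Q n₀ * (r : ℤ) ^ (u (n₀ + n) + u (n₀ + n + 1)) :=
      mul_le_mul_of_nonneg_right (Q1 n₀) (by linarith)
    have h4 : Q (n₀ + n) * (r : ℤ) ^ (u n₀ + u (n₀ + 1))
        ≤ (C : ℤ) ^ 3 * (r : ℤ) ^ (u n₀ + u (n₀ + 1)) :=
      mul_le_mul_of_nonneg_right (QC _) (by positivity)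
    have h5 := tt_two_pow_gt r (u (n₀ + n) + u (n₀ + n + 1)) hr
    have h6 : (u (n₀ + n) : ℤ) ≤ ((C ^ 3 * r ^ (u n₀ + u (n₀ + 1)) : ℕ) : ℤ) := by
      push_cast at h5 ⊢
      have h7 : (0 : ℤ) ≤ u (n₀ + n + 1) := by positivity
      linarith
    exact_mod_cast h6
  have hub : ∀ k, u k ≤ C ^ 3 * r ^ (u n₀ + u (n₀ + 1)) + ∑ i ∈ Finset.range n₀, u i := by
    intro k
    rcases Nat.lt_or_ge k n₀ with hk | hk
    · exact (Finset.single_le_sum (f := u) (fun i _ => Nat.zero_le _)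
        (Finset.mem_range.2 hk)).trans (Nat.le_add_left _ _)
    · exact (ubound k hk).trans (Nat.le_add_right _ _)
  set K := C ^ 3 * r ^ (u n₀ + u (n₀ + 1)) + ∑ i ∈ Finset.range n₀, u i with hKdef
  refine ⟨⟨K, hub⟩, ?_⟩
  obtain ⟨k3, hk3⟩ := hg K
  refine ⟨n₀ + k3, fun k hk => ?_⟩
  obtain ⟨h1, m, hm⟩ := ev k (by omega)
  have a0 := hk3 k (by omega) (hub _) (hub _)
  have a1 : h (k + 1) + K < h (k + 2) := hk3 (k + 1) (by omega) (hub _) (hub _)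
  have b2 := hub (k + 2)
  refine ⟨⟨m, ?_, hm⟩, ?_⟩
  · rcases Nat.eq_zero_or_pos m with h0 | h0
    · rw [h0, zero_mul, zero_add] at hm
      omega
    · exact h0
  · simp only [ttD] at h1
    have e : P (k + 1 + 1) = P (k + 2) := rfl
    have e' : d (k + 1 + 1) = d (k + 2) := rfl
    rw [e, e'] at h1
    linear_combination h1

end chain

end Pool.Agent.Lib_helper53.PIX
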