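import Pool.Agent.Lib_helper53.PIX.GapB
import Pool.Agent.Lib_helper53.PIX.TT
import Pool.Agent.Lib_helper53.PIX.SMDEP
import Pool.Agent.Lib_helper41.PIX.TB

set_option autoImplicit false

namespace Pool.Agent.Lib_helper53.PIX

open Pool.Agent.Lib_helper53.PIB

theorem reps_of_vg {ξ : ℝ} (h0 : 0 < ξ) {r : ℕ} (hr : 2 ≤ r) {c : ℕ}
    (hcr : ∀ n, cpx (dig ξ r) n ≤ n + c) {C C' : ℕ} (hC : 4 * r ^ (c + 1) ≤ C) (hCC : C ≤ C')
    {P : ℕ → ℤ} {d : ℕ → ℕ} (hV : ∀ k, VG ξ C (P k) (d k)) :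
    ∃ g u h : ℕ → ℕ, Rep r C' d g u h := by
  have := fun k => rep_of_vg hr (exists_fit h0 hr hcr) hC (hV k)
  choose g u h h1 h2 h3 h4 using this
  exact ⟨g, u, h, ⟨h1, h2, fun k => (h3 k).trans hCC, h4⟩⟩

/-- Two exceptional bases of a number with finite irrationality measure are multiplicatively
dependent. -/
theorem dependent_of_exceptional {ξ : ℝ} (h0 : 0 < ξ) (hξ : Irrational ξ) {μ M : ℕ}
    (hmeas : ∀ (P : ℤ) (d : ℕ), 1 ≤ d →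
      (1 : ℝ) ≤ (M : ℝ) * (d : ℝ) ^ μ * |(d : ℝ) * ξ - (P : ℝ)|)
    {r s c : ℕ} (hr : 2 ≤ r) (hs : 2 ≤ s) (hcr : ∀ n, cpx (dig ξ r) n ≤ n + c)
    (hcs : ∀ n, cpx (dig ξ s) n ≤ n + c) : ∃ x y : ℕ, 1 ≤ x ∧ 1 ≤ y ∧ r ^ x = s ^ y := by
  by_contra hcon
  push Not at hcon
  have hind : ∀ x y : ℕ, 1 ≤ x → 1 ≤ y → r ^ x ≠ s ^ y := fun x y hx hy => hcon x y hx hy
  have fr := exc_far h0 hξ hr hcr
  have fs := exc_far h0 hξ hs hcs
  have hr1 : 1 ≤ r ^ (c + 1) := Nat.one_le_pow _ _ (by omega)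
  obtain ⟨C₂, P, d, hch, hV⟩ := exists_chain (C := 4 * r ^ (c + 1) + 4 * s ^ (c + 1)) hr
    (exists_fit h0 hr hcr) fr hmeas (by omega)
  have hch' := chn_mono (C' := max (4 * r ^ (c + 1) + 4 * s ^ (c + 1)) C₂) hch (le_max_right _ _)
  obtain ⟨g, u, h, hR⟩ := reps_of_vg h0 hr hcr (C' := max (4 * r ^ (c + 1) + 4 * s ^ (c + 1)) C₂)
    (by omega) (le_max_left _ _) hV
  obtain ⟨g', u', h', hR'⟩ := reps_of_vg h0 hs hcs
    (C' := max (4 * r ^ (c + 1) + 4 * s ^ (c + 1)) C₂) (by omega) (le_max_left _ _) hV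
  obtain ⟨hsm, hsm'⟩ := small_of_rep hr hs hind hch' hR hR'
  have hg := gap_of_vg hr fr hV (by omega) hch' hR
  have hg' := gap_of_vg hs fs hV (by omega) hch' hR'
  obtain ⟨⟨K, hK⟩, k₀, h3⟩ := three_term hr hch' hR hsm hg
  obtain ⟨⟨K', hK'⟩, k₀', h3'⟩ := three_term hs hch' hR' hsm' hg'
  exact two_bases hr hs hind hch' hR hR' (K := max K K')
    (fun k => (hK k).trans (le_max_left _ _)) (fun k => (hK' k).trans (le_max_right _ _))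
    (k₀ := max k₀ k₀') (fun k hk => h3 k ((le_max_left _ _).trans hk))
    (fun k hk => h3' k ((le_max_right _ _).trans hk))

end Pool.Agent.Lib_helper53.PIX
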