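import Pool.Agent.Lib_helper87.PIXA.A
import Pool.Agent.Lib_helper87.PIXA.MB
import Pool.Agent.Lib_helper31.PIX.MD

set_option autoImplicit false

namespace Pool.Agent.Lib_helper53.PIX

/-- `π` has a finite irrationality measure. -/
theorem pi_measure : ∃ μ M : ℕ, ∀ (P : ℤ) (d : ℕ), 1 ≤ d →
    (1 : ℝ) ≤ (M : ℝ) * (d : ℝ) ^ μ * |(d : ℝ) * Real.pi - (P : ℝ)| :=
  pi_measure_of Pool.Agent.Lib_helper87.PIXA.conv_alg Pool.Agent.Lib_helper87.PIXB.conv_le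
    Pool.Agent.Lib_helper87.PIXB.conv_ge Pool.Agent.Lib_helper87.PIXB.lcm_bound

end Pool.Agent.Lib_helper53.PIX
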