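import Pool.Agent.Lib_helper53.PIX.Chain
import Pool.Agent.Lib_helper53.PIX.Abs

set_option autoImplicit false

namespace Pool.Agent.Lib_helper53.PIX

theorem exists_vg {ξ : ℝ} {r : ℕ} (hr : 2 ≤ r) {c : ℕ}
    (hfit : ∀ n, ∃ i j, i < j ∧ j ≤ n + c ∧ Fit ξ r n i j)
    (hfar : ∀ δ, 1 ≤ δ → ∃ M : ℕ, ∀ (m : ℕ) (A : ℤ),
      1 / (r : ℝ) ^ M < |((r : ℝ) ^ (m + δ) - (r : ℝ) ^ m) * ξ - (A : ℝ)|) (C : ℕ) :
    ∃ N₀ κ, ∀ n, N₀ ≤ n → ∃ (P : ℤ) (d : ℕ), VG ξ C P d ∧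
      |(d : ℝ) * ξ - (P : ℝ)| ≤ 1 / (r : ℝ) ^ n ∧ d ≤ r ^ (n + κ) := by
  obtain ⟨N₀, hN₀⟩ := good_n hr hfit hfar C
  refine ⟨N₀, 2 * (C + c), fun n hn => ?_⟩
  obtain ⟨n', h1, h2, i, j, hij, hj, A, hA⟩ := hN₀ n hn
  have hr1 : (1 : ℝ) ≤ r := by exact_mod_cast (by omega : 1 ≤ r)
  have hpow : r ^ i < r ^ j := Nat.pow_lt_pow_right (by omega) hij
  have hDpos : (0 : ℤ) < (r : ℤ) ^ j - (r : ℤ) ^ i := by
    have : ((r ^ i : ℕ) : ℤ) < ((r ^ j : ℕ) : ℤ) := by exact_mod_cast hpow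
    push_cast at this
    linarith
  have hg : 0 < Int.gcd A ((r : ℤ) ^ j - (r : ℤ) ^ i) := by
    rw [Int.gcd_pos_iff]
    right
    exact hDpos.ne'
  obtain ⟨g, P, D, hg0, hgcd, hAe, hDe⟩ := Int.exists_gcd_one' hg
  have hg0' : (0 : ℤ) < g := by exact_mod_cast hg0
  have hD0 : 0 < D := by
    by_contra hneg
    push Not at hneg
    have : D * (g : ℤ) ≤ 0 := mul_nonpos_of_nonpos_of_nonneg hneg hg0'.le
    linarith
  obtain ⟨d, rfl⟩ := Int.eq_ofNat_of_zero_le hD0.le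
  have hd1 : 1 ≤ d := by omega
  have hgr : (1 : ℝ) ≤ g := by exact_mod_cast hg0
  have hDer : (r : ℝ) ^ j - (r : ℝ) ^ i = d * g := by exact_mod_cast hDe
  have hAer : (A : ℝ) = P * g := by exact_mod_cast hAe
  have hap : |(d : ℝ) * ξ - (P : ℝ)| ≤ 1 / (r : ℝ) ^ n' := by
    refine le_trans ?_ hA
    have e : ((r : ℝ) ^ j - (r : ℝ) ^ i) * ξ - (A : ℝ) = g * ((d : ℝ) * ξ - (P : ℝ)) := by
      rw [hDer, hAer]
      ring
    rw [e, abs_mul, abs_of_pos (by linarith : (0 : ℝ) < g)]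
    have := abs_nonneg ((d : ℝ) * ξ - (P : ℝ))
    nlinarith
  have hdle : d ≤ r ^ j := by
    have h3 : (d : ℤ) * 1 ≤ (d : ℤ) * g := by
      apply mul_le_mul_of_nonneg_left _ (by positivity)
      omega
    have h4 : (d : ℤ) ≤ ((r ^ j : ℕ) : ℤ) := by
      push_cast
      have : (0 : ℤ) ≤ (r : ℤ) ^ i := by positivity
      linarith
    exact_mod_cast h4
  have hCr : (C : ℝ) ≤ (r : ℝ) ^ C := by
    have h5 : C < 2 ^ C := Nat.lt_two_pow_self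
    have h6 : 2 ^ C ≤ r ^ C := Nat.pow_le_pow_left hr C
    exact_mod_cast (by omega : C ≤ r ^ C)
  refine ⟨P, d, ⟨hd1, Int.isCoprime_iff_gcd_eq_one.2 hgcd, ?_⟩, ?_, ?_⟩
  · have hdr : (d : ℝ) ≤ (r : ℝ) ^ j := by exact_mod_cast hdle
    calc |(d : ℝ) * ξ - (P : ℝ)| * d * C ≤ 1 / (r : ℝ) ^ n' * (r : ℝ) ^ j * (r : ℝ) ^ C := by
          gcongr
      _ = (r : ℝ) ^ (j + C) / (r : ℝ) ^ n' := by
          rw [pow_add]
          ring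
      _ ≤ 1 := by
          rw [div_le_one (by positivity)]
          exact pow_le_pow_right₀ hr1 hj
  · refine hap.trans ?_
    exact one_div_le_one_div_of_le (by positivity) (pow_le_pow_right₀ hr1 h1)
  · exact hdle.trans (Nat.pow_le_pow_right (by omega) (by omega))

theorem nat_pow_between {r : ℕ} (hr : 2 ≤ r) {x : ℝ} (hx : 0 < x) (hx1 : x < 1) :
    ∃ n : ℕ, 1 / (r : ℝ) ^ n < x ∧ (r : ℝ) ^ n ≤ r * (1 / x) := by
  classical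
  have hr1 : (1 : ℝ) < r := by exact_mod_cast (by omega : 1 < r)
  have hex : ∃ n : ℕ, 1 / x < (r : ℝ) ^ n := pow_unbounded_of_one_lt _ hr1
  have h1 := Nat.find_spec hex
  have h0 : Nat.find hex ≠ 0 := by
    intro h0
    rw [h0, pow_zero, div_lt_one hx] at h1
    linarith
  have h2 := Nat.find_min hex (show Nat.find hex - 1 < Nat.find hex by omega)
  push Not at h2
  refine ⟨Nat.find hex, ?_, ?_⟩
  · rw [div_lt_iff₀ (by positivity)]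
    rw [div_lt_iff₀ hx] at h1
    linarith
  · have h3 : (r : ℝ) ^ Nat.find hex = r * (r : ℝ) ^ (Nat.find hex - 1) := by
      rw [← pow_succ']
      congr 1
      omega
    rw [h3]
    gcongr

/-- The next very good approximation. -/
theorem next_vg {ξ : ℝ} {r : ℕ} (hr : 2 ≤ r) {c : ℕ}
    (hfit : ∀ n, ∃ i j, i < j ∧ j ≤ n + c ∧ Fit ξ r n i j)
    (hfar : ∀ δ, 1 ≤ δ → ∃ M : ℕ, ∀ (m : ℕ) (A : ℤ),
      1 / (r : ℝ) ^ M < |((r : ℝ) ^ (m + δ) - (r : ℝ) ^ m) * ξ - (A : ℝ)|)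
    {μ M : ℕ} (hmeas : ∀ (P : ℤ) (d : ℕ), 1 ≤ d →
      (1 : ℝ) ≤ (M : ℝ) * (d : ℝ) ^ μ * |(d : ℝ) * ξ - (P : ℝ)|)
    {C : ℕ} (hC : 2 ≤ C) :
    ∃ d₀ C₂ : ℕ, ∀ (P : ℤ) (d : ℕ), VG ξ C P d → d₀ ≤ d → ∃ (P' : ℤ) (d' : ℕ), VG ξ C P' d' ∧
      d < d' ∧ P' * d - P * d' ≠ 0 ∧ |P' * d - P * d'| ≤ C₂ ∧ d' ≤ C₂ * d ^ μ := by
  obtain ⟨N₀, κ, hvg⟩ := exists_vg hr hfit hfar C
  refine ⟨r ^ N₀ + 1, (r ^ (κ + 1) + 1) * (M + 1), fun P d h hd => ?_⟩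
  obtain ⟨hd1, hcop, hap⟩ := h
  have hr1 : (1 : ℝ) < r := by exact_mod_cast (by omega : 1 < r)
  have hd0 : (1 : ℝ) ≤ d := by exact_mod_cast hd1
  have hC2 : (2 : ℝ) ≤ C := by exact_mod_cast hC
  set η := |(d : ℝ) * ξ - (P : ℝ)| with hη
  have hm := hmeas P d hd1
  rw [← hη] at hm
  have hη0 : 0 < η := by
    rcases (abs_nonneg ((d : ℝ) * ξ - (P : ℝ))).eq_or_lt with h0 | h0
    · rw [hη, ← h0] at hm
      linarith
    · exact h0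
  have hηd : η * d * 2 ≤ 1 := le_trans (by gcongr) hap
  have hη1 : η < 1 := by nlinarith
  obtain ⟨n, hn1, hn2⟩ := nat_pow_between hr hη0 hη1
  have hnN : N₀ ≤ n := by
    by_contra hlt
    push Not at hlt
    have h1 : (r : ℝ) ^ n ≤ (r : ℝ) ^ N₀ := pow_le_pow_right₀ hr1.le hlt.le
    have h2 : ((r ^ N₀ + 1 : ℕ) : ℝ) ≤ d := by exact_mod_cast hd
    push_cast at h2
    rw [div_lt_iff₀ (by positivity)] at hn1
    nlinarith [pow_pos (by linarith : (0 : ℝ) < r) n]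
  obtain ⟨P', d', ⟨hd1', hcop', hap'⟩, hle', hdle⟩ := hvg n hnN
  have hd0' : (1 : ℝ) ≤ d' := by exact_mod_cast hd1'
  have hlt' : |(d' : ℝ) * ξ - (P' : ℝ)| < η := lt_of_le_of_lt hle' hn1
  have hne : P' * d - P * d' ≠ 0 := by
    intro h0
    have h1 : P' * d = P * d' := by linarith
    have h2 : (d : ℤ) ∣ d' := hcop.symm.dvd_of_dvd_mul_left (by rw [← h1]; exact Dvd.intro_left P' rfl)
    have h3 : (d' : ℤ) ∣ d := hcop'.symm.dvd_of_dvd_mul_left (by rw [h1]; exact Dvd.intro_left P rfl)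
    have h4 : d = d' := Nat.dvd_antisymm (by exact_mod_cast h2) (by exact_mod_cast h3)
    subst h4
    have h5 : P' = P := by
      have : (d : ℤ) ≠ 0 := by omega
      exact mul_right_cancel₀ this h1
    subst h5
    rw [← hη] at hlt'
    exact lt_irrefl _ hlt'
  have hdet : |((P' * d - P * d' : ℤ) : ℝ)| ≤ d' * η + d * |(d' : ℝ) * ξ - (P' : ℝ)| := by
    have e : ((P' * d - P * d' : ℤ) : ℝ) = d' * ((d : ℝ) * ξ - P) - d * ((d' : ℝ) * ξ - P') := by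
      push_cast
      ring
    rw [e]
    refine (abs_sub _ _).trans ?_
    rw [abs_mul, abs_mul, abs_of_pos (by linarith : (0 : ℝ) < d'),
      abs_of_pos (by linarith : (0 : ℝ) < d), ← hη]
  have hdd' : d < d' := by
    by_contra hle
    push Not at hle
    have h1 : (1 : ℝ) ≤ |((P' * d - P * d' : ℤ) : ℝ)| := by
      exact_mod_cast Int.one_le_abs hne
    have h2 : (d' : ℝ) ≤ d := by exact_mod_cast hle
    nlinarith
  have hd'r : (d' : ℝ) ≤ (r : ℝ) ^ (κ + 1) * (1 / η) := by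
    have h1 : (d' : ℝ) ≤ (r : ℝ) ^ (n + κ) := by exact_mod_cast hdle
    calc (d' : ℝ) ≤ (r : ℝ) ^ (n + κ) := h1
      _ = (r : ℝ) ^ n * (r : ℝ) ^ κ := pow_add _ _ _
      _ ≤ r * (1 / η) * (r : ℝ) ^ κ := by gcongr
      _ = (r : ℝ) ^ (κ + 1) * (1 / η) := by ring
  have hd'η : (d' : ℝ) * η ≤ (r : ℝ) ^ (κ + 1) := by
    calc (d' : ℝ) * η ≤ (r : ℝ) ^ (κ + 1) * (1 / η) * η := by gcongr
      _ = (r : ℝ) ^ (κ + 1) := by field_simp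
  have hR0 : (0 : ℝ) < (r : ℝ) ^ (κ + 1) := by positivity
  refine ⟨P', d', ⟨hd1', hcop', hap'⟩, hdd', hne, ?_, ?_⟩
  · have h1 : |((P' * d - P * d' : ℤ) : ℝ)| ≤ (r : ℝ) ^ (κ + 1) + 1 := by
      refine hdet.trans ?_
      have : (d : ℝ) * |(d' : ℝ) * ξ - (P' : ℝ)| ≤ d * η := by gcongr
      nlinarith
    have h2 : (r : ℝ) ^ (κ + 1) + 1 ≤ (((r ^ (κ + 1) + 1) * (M + 1) : ℕ) : ℝ) := by
      push_cast
      have : (0 : ℝ) ≤ M := by positivity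
      nlinarith
    exact_mod_cast h1.trans h2
  · have h1 : 1 / η ≤ M * (d : ℝ) ^ μ := by
      rw [div_le_iff₀ hη0]
      exact hm
    have h2 : (d' : ℝ) ≤ (((r ^ (κ + 1) + 1) * (M + 1) * d ^ μ : ℕ) : ℝ) := by
      push_cast
      calc (d' : ℝ) ≤ (r : ℝ) ^ (κ + 1) * (1 / η) := hd'r
        _ ≤ (r : ℝ) ^ (κ + 1) * (M * (d : ℝ) ^ μ) := by gcongr
        _ = (r : ℝ) ^ (κ + 1) * M * (d : ℝ) ^ μ := by ring
        _ ≤ ((r : ℝ) ^ (κ + 1) + 1) * (M + 1) * (d : ℝ) ^ μ := by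
            gcongr
            · linarith
            · linarith
    exact_mod_cast h2

/-- Existence of the chain. -/
theorem exists_chain {ξ : ℝ} {r : ℕ} (hr : 2 ≤ r) {c : ℕ}
    (hfit : ∀ n, ∃ i j, i < j ∧ j ≤ n + c ∧ Fit ξ r n i j)
    (hfar : ∀ δ, 1 ≤ δ → ∃ M : ℕ, ∀ (m : ℕ) (A : ℤ),
      1 / (r : ℝ) ^ M < |((r : ℝ) ^ (m + δ) - (r : ℝ) ^ m) * ξ - (A : ℝ)|)
    {μ M : ℕ} (hmeas : ∀ (P : ℤ) (d : ℕ), 1 ≤ d →
      (1 : ℝ) ≤ (M : ℝ) * (d : ℝ) ^ μ * |(d : ℝ) * ξ - (P : ℝ)|)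
    {C : ℕ} (hC : 2 ≤ C) :
    ∃ (C₂ : ℕ) (P : ℕ → ℤ) (d : ℕ → ℕ), Chn C₂ μ P d ∧ ∀ k, VG ξ C (P k) (d k) := by
  obtain ⟨d₀, C₂, hnext⟩ := next_vg hr hfit hfar hmeas hC
  obtain ⟨N₀, κ, hvg⟩ := exists_vg hr hfit hfar C
  have hr1 : (1 : ℝ) < r := by exact_mod_cast (by omega : 1 < r)
  -- the first element
  obtain ⟨P0, D0, hV0, hD0⟩ : ∃ (P : ℤ) (d : ℕ), VG ξ C P d ∧ d₀ ≤ d := by
    obtain ⟨n, hn⟩ := pow_unbounded_of_one_lt ((M : ℝ) * ((d₀ : ℝ) + 1) ^ μ) hr1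
    obtain ⟨P, d, hV, hle, _⟩ := hvg (max n N₀) (le_max_right _ _)
    refine ⟨P, d, hV, ?_⟩
    by_contra hlt
    push Not at hlt
    have h1 := hmeas P d hV.1
    have h2 : (r : ℝ) ^ n ≤ (r : ℝ) ^ (max n N₀) := pow_le_pow_right₀ hr1.le (le_max_left _ _)
    have h3 : (d : ℝ) ≤ (d₀ : ℝ) + 1 := by
      have : (d : ℝ) ≤ d₀ := by exact_mod_cast hlt.le
      linarith
    have h4 : (M : ℝ) * (d : ℝ) ^ μ * |(d : ℝ) * ξ - (P : ℝ)| ≤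
        (M : ℝ) * ((d₀ : ℝ) + 1) ^ μ * (1 / (r : ℝ) ^ (max n N₀)) := by gcongr
    have h5 : (M : ℝ) * ((d₀ : ℝ) + 1) ^ μ * (1 / (r : ℝ) ^ (max n N₀)) < 1 := by
      rw [mul_one_div, div_lt_one (by positivity)]
      linarith
    linarith
  choose! fP fd hf using hnext
  let step : ℤ × ℕ → ℤ × ℕ := fun p => (fP p.1 p.2, fd p.1 p.2)
  let s : ℕ → ℤ × ℕ := fun k => step^[k] (P0, D0)
  have hs : ∀ k, s (k + 1) = step (s k) := fun k => Function.iterate_succ_apply' step k (P0, D0)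
  have hinv : ∀ k, VG ξ C (s k).1 (s k).2 ∧ d₀ ≤ (s k).2 := by
    intro k
    induction k with
    | zero => exact ⟨hV0, hD0⟩
    | succ k ih =>
      have h1 := hf _ _ ih.1 ih.2
      rw [hs]
      exact ⟨h1.1, le_trans ih.2 h1.2.1.le⟩
  have hst : ∀ k, VG ξ C (s (k + 1)).1 (s (k + 1)).2 ∧ (s k).2 < (s (k + 1)).2 ∧
      (s (k + 1)).1 * (s k).2 - (s k).1 * (s (k + 1)).2 ≠ 0 ∧
      |(s (k + 1)).1 * (s k).2 - (s k).1 * (s (k + 1)).2| ≤ C₂ ∧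
      (s (k + 1)).2 ≤ C₂ * (s k).2 ^ μ := by
    intro k
    have h1 := hf _ _ (hinv k).1 (hinv k).2
    rw [hs]
    exact h1
  refine ⟨C₂, fun k => (s k).1, fun k => (s k).2, ⟨fun k => (hinv k).1.2.1, fun k => (hinv k).1.1,
    fun k => (hst k).2.1, fun k => (hst k).2.2.1, fun k => (hst k).2.2.2.1,
    fun k => (hst k).2.2.2.2⟩, fun k => (hinv k).1⟩

end Pool.Agent.Lib_helper53.PIX
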