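import Pool.Agent.Lib_helper53.PIX.Indep

set_option autoImplicit false

namespace Pool.Agent.Lib_helper53.PIX

open Pool.Agent.Lib_helper53.PIB Filter

theorem measure_of_not_liouville {ξ : ℝ} (hξ : Irrational ξ) (hL : ¬ Liouville ξ) :
    ∃ μ M : ℕ, ∀ (P : ℤ) (d : ℕ), 1 ≤ d →
      (1 : ℝ) ≤ (M : ℝ) * (d : ℝ) ^ μ * |(d : ℝ) * ξ - (P : ℝ)| := by
  unfold Liouville at hL
  push Not at hL
  obtain ⟨n, hn⟩ := hL
  have hr : 0 < |ξ - round ξ| := by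
    rw [abs_pos, sub_ne_zero]
    exact hξ.ne_int _
  obtain ⟨M, hM⟩ := exists_nat_gt (1 / |ξ - round ξ|)
  refine ⟨n, M + 1, fun P d hd => ?_⟩
  have hd0 : (1 : ℝ) ≤ d := by exact_mod_cast hd
  rcases hd.lt_or_eq with h1 | h1
  · have hne : ξ ≠ (P : ℝ) / ((d : ℤ) : ℝ) := by
      intro he
      apply hξ
      refine ⟨(P : ℚ) / ((d : ℤ) : ℚ), ?_⟩
      rw [he]
      push_cast
      ring
    have h2 := hn P (d : ℤ) (by exact_mod_cast h1) hne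
    rw [Int.cast_natCast] at h2
    have h3 : |(d : ℝ) * ξ - (P : ℝ)| = d * |ξ - (P : ℝ) / (d : ℝ)| := by
      have e : (d : ℝ) * ξ - (P : ℝ) = d * (ξ - (P : ℝ) / (d : ℝ)) := by
        field_simp
      rw [e, abs_mul, Nat.abs_cast]
    have hp : (0 : ℝ) < (d : ℝ) ^ n := by positivity
    rw [div_le_iff₀ hp] at h2
    rw [h3]
    have hM0 : (0 : ℝ) ≤ M := Nat.cast_nonneg _
    have h4 : 0 ≤ |ξ - (P : ℝ) / (d : ℝ)| := abs_nonneg _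
    push_cast
    calc (1 : ℝ) ≤ |ξ - (P : ℝ) / (d : ℝ)| * (d : ℝ) ^ n := h2
      _ = 1 * (d : ℝ) ^ n * (1 * |ξ - (P : ℝ) / (d : ℝ)|) := by ring
      _ ≤ ((M : ℝ) + 1) * (d : ℝ) ^ n * (d * |ξ - (P : ℝ) / (d : ℝ)|) := by
          gcongr
          linarith
  · subst h1
    have h2 : |ξ - round ξ| ≤ |ξ - (P : ℝ)| := round_le ξ P
    rw [div_lt_iff₀ hr] at hM
    push_cast
    rw [one_pow, mul_one, one_mul]
    have hM0 : (0 : ℝ) ≤ M := Nat.cast_nonneg _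
    calc (1 : ℝ) ≤ M * |ξ - round ξ| := hM.le
      _ ≤ ((M : ℝ) + 1) * |ξ - (P : ℝ)| := by
          gcongr
          linarith

theorem shape {ξ : ℝ} (h0 : 0 < ξ) (hξ : Irrational ξ)
    (hmeas : ∃ μ M : ℕ, ∀ (P : ℤ) (d : ℕ), 1 ≤ d →
      (1 : ℝ) ≤ (M : ℝ) * (d : ℝ) ^ μ * |(d : ℝ) * ξ - (P : ℝ)|) :
    (∀ b : ℕ, 2 ≤ b → Tendsto (fun n : ℕ => (cpx (dig ξ b) n : ℤ) - (n : ℤ)) atTop atTop) ∨
    ∃ a g : ℕ, 2 ≤ a ∧ 1 ≤ g ∧
      (∀ b : ℕ, 2 ≤ b → (∀ k, k ∣ g → b ≠ a ^ k) →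
        Tendsto (fun n : ℕ => (cpx (dig ξ b) n : ℤ) - (n : ℤ)) atTop atTop) ∧
      (∀ k : ℕ, k ∣ g → ∃ c n₀ : ℕ, ∀ n : ℕ, n₀ ≤ n → cpx (dig ξ (a ^ k)) n = n + c) ∧
      (∀ k : ℕ, 1 ≤ k → ¬ k ∣ g → ∀ n : ℕ, 1 ≤ n → 2 * n - 1 ≤ cpx (dig ξ (a ^ k)) n) := by
  obtain ⟨μ, M, hm⟩ := hmeas
  by_cases hE : ∃ r, 2 ≤ r ∧ ∃ C, ∀ n, cpx (dig ξ r) n ≤ n + C
  swap
  · left
    intro b hb
    push Not at hE
    refine tendsto_or (dig_lt ξ hb) (nep_dig h0 hξ hb) ?_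
    push Not
    exact hE b hb
  right
  obtain ⟨r, hr, C, hC⟩ := hE
  obtain ⟨a, ha, hroot⟩ := common_root hr
  obtain ⟨j, hj, hrj⟩ := hroot r hr ⟨1, 1, le_rfl, le_rfl, rfl⟩
  rcases Pool.Agent.Lib_helper53.PIB.main h0 hξ ha with hall | ⟨g, hg, hmain⟩
  · exfalso
    have h1 := hall j hj
    rw [← hrj] at h1
    rw [tendsto_atTop] at h1
    obtain ⟨n, hn⟩ := (h1 ((C : ℤ) + 1)).exists
    have := hC n
    omega
  refine ⟨a, g, ha, hg, ?_, ?_, ?_⟩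
  · intro b hb hne
    refine tendsto_or (dig_lt ξ hb) (nep_dig h0 hξ hb) ?_
    rintro ⟨C', hC'⟩
    have hdep := dependent_of_exceptional h0 hξ hm (c := max C C') hr hb
      (fun n => (hC n).trans (by omega)) (fun n => (hC' n).trans (by omega))
    obtain ⟨k, hk, hbk⟩ := hroot b hb hdep
    by_cases hkg : k ∣ g
    · exact hne k hkg hbk
    · have h2 := (hmain k hk).2 hkg (C' + 2) (by omega)
      rw [← hbk] at h2
      have := hC' (C' + 2)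
      omega
  · intro k hk
    have hk1 : 1 ≤ k := Nat.pos_of_dvd_of_pos hk (by omega)
    exact (hmain k hk1).1 hk
  · intro k hk hkg
    exact (hmain k hk).2 hkg

end Pool.Agent.Lib_helper53.PIX
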